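import Pool.Agent.H98.Flat.Rows

/-! Alignment: one V-row forces all arcs to be aligned with `f`. -/

namespace Pool.Agent.H98.Flat

open Finset

namespace Cfg

variable {C : Cfg}

theorem TV_const {c : ℤ → ℤ} (ht : C.TV c) (y : ℤ) : c y = c 0 := by
  have step : ∀ y, c (y + 1) = c y := fun y => (corners ht y).1
  induction y using Int.induction_on with
  | zero => rfl
  | succ k ih => rw [step]; exact ih
  | pred k ih =>
    have := step (-(k : ℤ) - 1)
    rw [sub_add_cancel] at this
    omega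

theorem fb {c : ℤ} (ht : C.TV (fun _ => c)) (y v : ℤ) : c ≤ C.f y v ∧ C.f y v ≤ c + 1 :=
  (ht y).1 v

theorem gb {c : ℤ} (ht : C.TV (fun _ => c)) (y u : ℤ) : c ≤ C.g y u ∧ C.g y u ≤ c + 1 :=
  (ht y).2 u

/-- `f` is at its upper value on arc `k`, at level `y` -/
def Al (C : Cfg) (c : ℤ) (k y : ℤ) : Prop :=
  ∀ v, ph C.N (C.V k) (C.ell k) v = 1 → C.f y v = c + 1

theorem Al_congr {c k k' y y' : ℤ} (hk : (C.p : ℤ) ∣ k - k') (hy : (C.p : ℤ) ∣ y - y')
    (h : C.Al c k y) : C.Al c k' y' := by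
  intro v hv
  rw [← C.arcV_congr hk (by simp : C.N ∣ v - v)] at hv
  rw [← C.f_congr hy (by simp : C.N ∣ v - v)]
  exact h v hv

theorem birth (G : Gen C) {c : ℤ} (ht : C.TV (fun _ => c)) {y : ℤ} (hV : C.VRow y) :
    C.Al c (y + C.w) (y + 1) := by
  intro v hv
  have F := rowFacts G ht y
  have hv' := ph_eq_one_iff.1 hv
  have e : v - C.q * y - C.A y = v - C.V (y + C.w) := by unfold A V W; ring
  have h1 := C.f_step y v
  rw [D_row F, e] at h1
  unfold VRow at hV
  rw [if_pos (by unfold tz; exact hv'), if_neg (by unfold tz at hV; omega)] at h1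
  have := (fb ht y v).1
  have := (fb ht (y + 1) v).2
  omega

theorem row_last (G : Gen C) {c : ℤ} (ht : C.TV (fun _ => c)) {k : ℤ} (hA : C.Al c k k) :
    C.Al c (k + C.w) (k + 1) := by
  have F := rowFacts G ht k
  rcases V_or_H F with hV | hH
  · exact birth G ht hV
  intro v hv
  have hv' := ph_eq_one_iff.1 hv
  have e : v - C.q * k - C.A k = v - C.V (k + C.w) := by unfold A V W; ring
  have h1 := C.f_step k v
  rw [D_row F, e, if_pos (by unfold tz; exact hv')] at h1
  unfold HRow at hH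
  have l1 := (fb ht k v).1
  have l2 := (fb ht (k + 1) v).2
  by_cases hc : C.tx k ≤ (v - C.V (k + C.w)) % C.N
  · rw [if_pos ⟨hc, by have := F.tz_lt; unfold tz at this; omega⟩] at h1
    have h2 := arc_row F (u := v - C.q * k)
    rw [e, if_pos ⟨hc, by have := F.tz_lt; unfold tz at this; omega⟩] at h2
    have h3 : ph C.N (C.V k) (C.ell k) v = ph C.N (C.U k) (C.ell k) (v - C.q * k) := by
      apply ph_congr; exact ⟨0, by unfold V; ring⟩
    have := hA v (by rw [h3, h2])
    omega
  · rw [if_neg (by tauto)] at h1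
    omega

theorem persist (G : Gen C) {c : ℤ} (ht : C.TV (fun _ => c)) {k : ℤ} {j : ℕ}
    (hj0 : 0 < j) (hj : j < C.w) (hA : C.Al c k (k - j)) : C.Al c k (k - j + 1) := by
  intro v hv
  by_contra hne
  obtain ⟨y, hy⟩ : ∃ y, y = k - (j : ℤ) := ⟨_, rfl⟩
  rw [← hy] at hA hne
  have F := rowFacts G ht y
  have hN := C.N_pos
  have hq := C.q_pos
  have hW := C.W_pos
  have hH := C.H_pos
  have hWH := C.WH_le
  have hv' := ph_eq_one_iff.1 hv
  have h1 := C.f_step y v
  have fy := hA v hv
  have b1 := fb ht (y + 1) v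
  have hD : C.D y (v - C.q * y) = -1 := by
    have := D_row F (u := v - C.q * y)
    have l1 : (if (v - C.q * y - C.A y) % C.N < C.tz y then (1 : ℤ) else 0) ≥ 0 := by
      split_ifs <;> simp
    have l2 : (if C.tx y ≤ (v - C.q * y - C.A y) % C.N ∧ (v - C.q * y - C.A y) % C.N < C.tb y
      then (1 : ℤ) else 0) ≤ 1 := by split_ifs <;> simp
    omega
  set t := (v - C.q * y - C.A y) % C.N with ht'
  have t0 : 0 ≤ t := Int.emod_nonneg _ hN.ne'
  have hDr := D_row F (u := v - C.q * y)
  rw [← ht', hD] at hDr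
  have c1 : ¬ t < C.tz y := by
    intro h; rw [if_pos h] at hDr; split_ifs at hDr <;> omega
  have c2 : C.tx y ≤ t ∧ t < C.tb y := by
    by_contra h; rw [if_neg h, if_neg c1] at hDr; omega
  have s0 : 0 ≤ (v - C.V k) % C.N := Int.emod_nonneg _ hN.ne'
  have es := Int.emod_add_mul_ediv (v - C.V k) C.N
  have et := Int.emod_add_mul_ediv (v - C.q * y - C.A y) C.N
  have eb := Int.emod_add_mul_ediv (C.U (y + C.h) - C.A y) C.N
  set s := (v - C.V k) % C.N with hs
  have tbl := F.tbl
  have lk := C.ell_lt k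
  -- end of the arc
  have end1 : C.f y (v + (C.ell k - s)) = c := by
    have hI : C.In (k + C.h) (v + (C.ell k - s) - C.q * y) (v + (C.ell k - s)) := by
      have d1 : C.N ∣ v + (C.ell k - s) - (C.V (k + C.h) - C.H) := by
        obtain ⟨m, hm⟩ := C.V_ell k
        refine ⟨(v - C.V k) / C.N + m, ?_⟩
        rw [mul_add]; omega
      constructor
      · unfold hor
        have hqj : (0 : ℤ) ≤ C.q * j := by positivity
        have := q_step (C := C) hj
        rw [ph_at (t := C.q * j) _ hqj (by unfold W at *; omega), if_pos (by unfold W; omega)]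
        rwa [show v + (C.ell k - s) - C.q * y - (C.U (k + C.h) + C.q * j)
          = v + (C.ell k - s) - (C.V (k + C.h) - C.H) by unfold V H; rw [hy]; ring]
      · unfold ver
        rw [ph_at (t := 0) _ le_rfl hN, if_pos hH]
        rwa [add_zero]
    have := (cov_vals ht (y := y) (u := v + (C.ell k - s) - C.q * y) (s := C.q * y)
      (by nlinarith) le_rfl (by rwa [sub_add_cancel])).2
    rwa [sub_add_cancel] at this
  have end2d : C.N ∣ v + (C.tb y - t) - C.q * y - C.U (y + C.h) := by
    refine ⟨(v - C.q * y - C.A y) / C.N - (C.U (y + C.h) - C.A y) / C.N, ?_⟩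
    unfold tb
    rw [mul_sub]; omega
  have end2 : C.f y (v + (C.tb y - t)) = c := by
    have hI : C.In (y + C.h) (v + (C.tb y - t) - C.q * y) (v + (C.tb y - t)) := by
      refine In_congr (k := y + C.h) (by simp) ((dvd_sub_comm).1 end2d) ?_ (inB y)
      rw [show C.U (y + C.h) + C.q * y - (v + (C.tb y - t))
        = -(v + (C.tb y - t) - C.q * y - C.U (y + C.h)) by ring]
      exact (dvd_neg).2 end2d
    have := (cov_vals ht (y := y) (u := v + (C.tb y - t) - C.q * y) (s := C.q * y)
      (by nlinarith) le_rfl (by rwa [sub_add_cancel])).2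
    rwa [sub_add_cancel] at this
  rcases lt_trichotomy (C.ell k - s) (C.tb y - t) with hlt | heq | hgt
  · -- D = -1 at the end of the arc
    have hD2 := D_row F (u := v + (C.ell k - s) - C.q * y)
    have e2 : (v + (C.ell k - s) - C.q * y - C.A y) % C.N = t + (C.ell k - s) := by
      have : (v + (C.ell k - s) - C.q * y - C.A y) % C.N = (t + (C.ell k - s)) % C.N := by
        apply emod_congr
        exact ⟨(v - C.q * y - C.A y) / C.N, by omega⟩
      rw [this, Int.emod_eq_of_lt (by omega) (by omega)]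
    rw [e2, if_neg (by omega), if_pos (by omega)] at hD2
    have := C.f_step y (v + (C.ell k - s))
    have := (fb ht (y + 1) (v + (C.ell k - s))).1
    omega
  · have d1 : C.N ∣ v + (C.ell k - s) - (C.V (k + C.h) - C.H) := by
      obtain ⟨m, hm⟩ := C.V_ell k
      refine ⟨(v - C.V k) / C.N + m, ?_⟩
      rw [mul_add]; omega
    rw [← heq] at end2d
    have d2 := dvd_sub end2d d1
    have e3 : v + (C.ell k - s) - C.q * y - C.U (y + C.h)
        - (v + (C.ell k - s) - (C.V (k + C.h) - C.H)) = C.V (k + C.h) - C.V (y + C.h) := by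
      unfold V H; ring
    rw [e3] at d2
    have d3 := G.VV _ _ d2
    rw [show k + C.h - (y + C.h) = (j : ℤ) by rw [hy]; ring] at d3
    have := Nat.le_of_dvd hj0 (by exact_mod_cast d3)
    have := C.hwh
    omega
  · -- the arc contains the end of the region
    have h2 : ph C.N (C.V k) (C.ell k) (v + (C.tb y - t)) = 1 := by
      rw [ph_at (t := s + (C.tb y - t)) _ (by omega) (by omega), if_pos (by omega)]
      exact ⟨(v - C.V k) / C.N, by omega⟩
    have := hA _ h2
    omega

theorem full_arc (G : Gen C) {c : ℤ} (ht : C.TV (fun _ => c)) {k : ℤ}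
    (h : C.Al c k (k - C.w + 1)) (j : ℕ) (hj : j < C.w) : C.Al c k (k - j) := by
  have key : ∀ m : ℕ, m < C.w → C.Al c k (k - ((C.w - 1 - m : ℕ) : ℤ)) := by
    intro m
    induction m with
    | zero =>
      intro _
      have := C.hw
      rwa [show k - ((C.w - 1 - 0 : ℕ) : ℤ) = k - C.w + 1 by
        have : ((C.w - 1 - 0 : ℕ) : ℤ) = C.w - 1 := by omega
        omega]
    | succ m ih =>
      intro hm
      have h1 := ih (by omega)
      have h2 := persist G ht (by omega) (by omega) h1
      rwa [show k - ((C.w - 1 - m : ℕ) : ℤ) + 1 = k - ((C.w - 1 - (m + 1) : ℕ) : ℤ) by omega] at h2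
  have := key (C.w - 1 - j) (by omega)
  rwa [show (C.w - 1 - (C.w - 1 - j)) = j by omega] at this

/-- **alignment** -/
theorem aligned (G : Gen C) (cop : Nat.Coprime C.w C.p) {c : ℤ} (ht : C.TV (fun _ => c)) {y0 : ℤ}
    (hV : C.VRow y0) (k : ℤ) (j : ℕ) (hj : j < C.w) : C.Al c k (k - j) := by
  have key : ∀ n : ℕ, C.Al c (y0 + C.w + n * C.w) (y0 + C.w + n * C.w - C.w + 1) := by
    intro n
    induction n with
    | zero =>
      have := birth G ht hV
      simpa using this
    | succ n ih =>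
      have h1 := full_arc G ht ih 0 C.hw
      rw [Nat.cast_zero, sub_zero] at h1
      have h2 := row_last G ht h1
      have e1 : y0 + C.w + ((n + 1 : ℕ) : ℤ) * C.w = y0 + C.w + n * C.w + C.w := by
        push_cast; ring
      have e2 : y0 + C.w + ((n + 1 : ℕ) : ℤ) * C.w - C.w + 1 = y0 + C.w + n * C.w + 1 := by
        push_cast; ring
      rw [e1, show y0 + C.w + (n : ℤ) * C.w + C.w - C.w + 1 = y0 + C.w + n * C.w + 1 by ring]
      exact h2
  -- find n with y0 + w + n w ≡ k
  have hp : (0 : ℤ) < C.p := by exact_mod_cast C.p_pos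
  obtain ⟨n, hn⟩ : ∃ n : ℕ, (C.p : ℤ) ∣ y0 + C.w + n * C.w - k := by
    have hc : IsCoprime (C.w : ℤ) (C.p : ℤ) := Nat.isCoprime_iff_coprime.2 cop
    obtain ⟨a, b, hab⟩ := hc
    set d := k - y0 - C.w with hd
    refine ⟨((a * d) % C.p).toNat, ?_⟩
    rw [Int.toNat_of_nonneg (Int.emod_nonneg _ hp.ne')]
    have e := Int.emod_add_mul_ediv (a * d) C.p
    refine ⟨-((a * d) / C.p) * C.w - b * d, ?_⟩
    have e' : (a * d) % C.p = a * d - C.p * ((a * d) / C.p) := by omega
    rw [e']
    have : a * C.w * d + b * C.p * d = d := by rw [← add_mul, hab, one_mul]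
    have hk : k = d + y0 + C.w := by rw [hd]; ring
    rw [hk]
    linear_combination this
  have h1 := full_arc G ht (key n) j hj
  refine Al_congr hn ?_ h1
  rwa [show y0 + C.w + n * C.w - j - (k - j) = y0 + C.w + n * C.w - k by ring]

theorem c_zero (G : Gen C) (cop : Nat.Coprime C.w C.p) {c : ℤ} (ht : C.TV (fun _ => c)) {y0 : ℤ}
    (hV : C.VRow y0) : c = 0 := by
  have hq := C.q_pos
  have h1 := (cov_vals ht (y := 0) (s := C.q * 0) (by nlinarith) le_rfl (inB 0)).2
  have h0 := C.f_nonneg 0 (C.U (0 + C.h) + C.q * 0)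
  by_contra hc
  have hc1 : 1 ≤ c := by omega
  have h2 : 1 ≤ C.f 0 (C.U (0 + C.h) + C.q * 0) := by omega
  unfold f at h2
  have : ∃ i ∈ range C.w, 1 ≤ ph C.N (C.V (0 + i)) (C.ell (0 + i)) (C.U (0 + C.h) + C.q * 0) := by
    by_contra hcc
    push Not at hcc
    have : ∑ i ∈ range C.w, ph C.N (C.V (0 + i)) (C.ell (0 + i)) (C.U (0 + C.h) + C.q * 0) ≤ 0 :=
      Finset.sum_nonpos fun i hi => by have := hcc i hi; omega
    omega
  obtain ⟨i, hi, hi1⟩ := this
  have hi2 : ph C.N (C.V (0 + i)) (C.ell (0 + i)) (C.U (0 + C.h) + C.q * 0) = 1 :=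
    le_antisymm (ph_le_one _ _ _ _) hi1
  have h3 := aligned G cop ht hV (0 + i) i (Finset.mem_range.1 hi)
  rw [add_sub_cancel_right] at h3
  have := h3 _ hi2
  omega

end Cfg

end Pool.Agent.H98.Flat
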