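import Mathlib

/-! Arcs on the discrete circle `ℤ/N`. -/

namespace Pool.Agent.H98.Flat

open Finset

/-- indicator of the arc `[a, a+L)` modulo `N` -/
def ph (N a L x : ℤ) : ℤ := if (x - a) % N < L then 1 else 0

/-- indicator of divisibility -/
def dv (N z : ℤ) : ℤ := if N ∣ z then 1 else 0

theorem ph_nonneg (N a L x : ℤ) : 0 ≤ ph N a L x := by unfold ph; split_ifs <;> simp

theorem ph_le_one (N a L x : ℤ) : ph N a L x ≤ 1 := by unfold ph; split_ifs <;> simp

theorem ph_of_lt {N a L x : ℤ} (h : (x - a) % N < L) : ph N a L x = 1 := by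
  unfold ph; simp [h]

theorem ph_of_le {N a L x : ℤ} (h : L ≤ (x - a) % N) : ph N a L x = 0 := by
  unfold ph; simp [h]

theorem ph_eq_one_iff {N a L x : ℤ} : ph N a L x = 1 ↔ (x - a) % N < L := by
  unfold ph; split_ifs <;> simp_all

theorem ph_pos_iff {N a L x : ℤ} : 1 ≤ ph N a L x ↔ (x - a) % N < L := by
  unfold ph; split_ifs <;> simp_all

theorem emod_congr {N a b : ℤ} (h : N ∣ a - b) : a % N = b % N :=
  ((Int.modEq_iff_dvd.2 h : b ≡ a [ZMOD N])).symm

theorem ph_congr {N a a' L x x' : ℤ} (h : N ∣ (x - a) - (x' - a')) :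
    ph N a L x = ph N a' L x' := by
  unfold ph; rw [emod_congr h]

theorem ph_shift (N a L x t : ℤ) : ph N (a + t) L (x + t) = ph N a L x :=
  ph_congr ⟨0, by ring⟩

theorem ph_eq_div {N a L : ℤ} (hN : 0 < N) (h0 : 0 ≤ L) (h1 : L ≤ N) (x : ℤ) :
    ph N a L x = (x - a) / N - (x - a - L) / N := by
  have e := Int.emod_add_mul_ediv (x - a) N
  have l := Int.emod_nonneg (x - a) hN.ne'
  have u := Int.emod_lt_of_pos (x - a) hN
  set z := (x - a) / N with hz
  set y := (x - a) % N with hy
  unfold ph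
  rw [← hy]
  split_ifs with c
  · have : (x - a - L) / N = z - 1 := by
      refine ((Int.ediv_emod_unique (r := y - L + N) hN).2 ⟨?_, by omega, by omega⟩).1
      rw [mul_sub]; omega
    rw [this]; omega
  · have : (x - a - L) / N = z := by
      refine ((Int.ediv_emod_unique (r := y - L) hN).2 ⟨?_, by omega, by omega⟩).1
      omega
    rw [this]; omega

theorem div_jump {N : ℤ} (hN : 0 < N) (z : ℤ) : z / N - (z - 1) / N = dv N z := by
  have e := Int.emod_add_mul_ediv z N
  have l := Int.emod_nonneg z hN.ne'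
  have u := Int.emod_lt_of_pos z hN
  set t := z / N with hz
  set y := z % N with hy
  unfold dv
  split_ifs with c
  · have hy0 : y = 0 := Int.emod_eq_zero_of_dvd c
    have : (z - 1) / N = t - 1 := by
      refine ((Int.ediv_emod_unique (r := N - 1) hN).2 ⟨?_, by omega, by omega⟩).1
      rw [mul_sub]; omega
    rw [this]; omega
  · have hy0 : y ≠ 0 := fun h => c (Int.dvd_of_emod_eq_zero h)
    have : (z - 1) / N = t := by
      refine ((Int.ediv_emod_unique (r := y - 1) hN).2 ⟨?_, by omega, by omega⟩).1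
      omega
    rw [this]; omega

theorem ph_jump {N a L : ℤ} (hN : 0 < N) (h0 : 0 ≤ L) (h1 : L ≤ N) (x : ℤ) :
    ph N a L x - ph N a L (x - 1) = dv N (x - a) - dv N (x - a - L) := by
  rw [ph_eq_div hN h0 h1, ph_eq_div hN h0 h1, ← div_jump hN, ← div_jump hN]
  have e1 : x - 1 - a = x - a - 1 := by ring
  have e2 : x - a - 1 - L = x - a - L - 1 := by ring
  rw [e1, e2]; ring

theorem dv_congr {N x x' : ℤ} (h : N ∣ x - x') : dv N x = dv N x' := by
  unfold dv
  have : N ∣ x ↔ N ∣ x' := by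
    constructor
    · intro k; have := dvd_sub k h; simpa using this
    · intro k; have := dvd_add h k; simpa using this
  simp [this]

theorem dv_nonneg (N x : ℤ) : 0 ≤ dv N x := by unfold dv; split_ifs <;> simp
theorem dv_of {N x : ℤ} (h : N ∣ x) : dv N x = 1 := by unfold dv; simp [h]
theorem dv_not {N x : ℤ} (h : ¬ N ∣ x) : dv N x = 0 := by unfold dv; simp [h]

/-- the commutator identity -/
theorem ph_comm {N a b l t : ℤ} (hN : 0 < N) (l0 : 0 ≤ l) (l1 : l ≤ N) (t0 : 0 ≤ t) (t1 : t ≤ N)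
    (hb : N ∣ (a + l) - b) (x : ℤ) :
    ph N (a + t) l x = ph N a l x + ph N b t x - ph N a t x := by
  have : ph N b t x = ph N (a + l) t x := ph_congr (by
    have := hb; rwa [show (x - b) - (x - (a + l)) = (a + l) - b by ring])
  rw [this, ph_eq_div hN l0 l1, ph_eq_div hN l0 l1, ph_eq_div hN t0 t1, ph_eq_div hN t0 t1]
  have e1 : x - (a + t) - l = x - (a + l) - t := by ring
  have e2 : x - (a + t) = x - a - t := by ring
  have e3 : x - (a + l) = x - a - l := by ring
  rw [e1, e2, e3]; ring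

/-- reflection -/
theorem ph_neg {N a L : ℤ} (hN : 0 < N) (h0 : 0 ≤ L) (h1 : L ≤ N) (x : ℤ) :
    ph N (-a - L) L (-x - 1) = ph N a L x := by
  have e := Int.emod_add_mul_ediv (x - a) N
  have l := Int.emod_nonneg (x - a) hN.ne'
  have u := Int.emod_lt_of_pos (x - a) hN
  set z := (x - a) / N with hz
  set y := (x - a) % N with hy
  have key : (-x - 1 - (-a - L)) = (L - 1 - y) + N * (-z) := by
    rw [mul_neg]; omega
  unfold ph
  rw [key, Int.add_mul_emod_self_left, ← hy]
  by_cases c : y < L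
  · rw [Int.emod_eq_of_lt (by omega) (by omega)]; simp [c]; omega
  · have : (L - 1 - y) % N = L - 1 - y + N := by
      refine ((Int.ediv_emod_unique (q := -1) hN).2 ⟨?_, by omega, by omega⟩).2
      rw [mul_neg]; omega
    rw [this]; simp [c]; omega

/-- sums over a period do not depend on the starting point -/
theorem sum_period (p : ℕ) (F : ℤ → ℤ) (hF : ∀ k, F (k + p) = F k) (y : ℤ) :
    ∑ i ∈ range p, F (y + i) = ∑ i ∈ range p, F i := by
  have step : ∀ y : ℤ, ∑ i ∈ range p, F (y + 1 + i) = ∑ i ∈ range p, F (y + i) := by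
    intro y
    have h1 := Finset.sum_range_succ (fun i : ℕ => F (y + i)) p
    have h2 := Finset.sum_range_succ' (fun i : ℕ => F (y + i)) p
    have h3 : ∑ i ∈ range p, F (y + 1 + i) = ∑ i ∈ range p, F (y + ((i + 1 : ℕ) : ℤ)) := by
      refine Finset.sum_congr rfl fun i _ => ?_
      congr 1; push_cast; ring
    have h4 := hF y
    simp only [Nat.cast_zero, add_zero] at h2
    rw [h3]; omega
  induction y using Int.induction_on with
  | zero => simp
  | succ k ih => rw [step]; exact ih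
  | pred k ih =>
    rw [← step]
    rw [show -(k : ℤ) - 1 + 1 = -k by ring]; exact ih

theorem sum_div (n : ℕ) (hn : 0 < n) (b : ℤ) :
    ∑ i ∈ range n, ((i : ℤ) - b) / (n : ℤ) = - b := by
  have hN : (0 : ℤ) < n := by exact_mod_cast hn
  have step : ∀ b : ℤ, ∑ i ∈ range n, ((i : ℤ) - (b + 1)) / (n : ℤ)
      = ∑ i ∈ range n, ((i : ℤ) - b) / (n : ℤ) - 1 := by
    intro b
    have h1 := Finset.sum_range_succ (fun i : ℕ => ((i : ℤ) - (b + 1)) / (n : ℤ)) n
    have h2 := Finset.sum_range_succ' (fun i : ℕ => ((i : ℤ) - (b + 1)) / (n : ℤ)) n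
    have h3 : ∑ i ∈ range n, (((i + 1 : ℕ) : ℤ) - (b + 1)) / (n : ℤ)
        = ∑ i ∈ range n, ((i : ℤ) - b) / (n : ℤ) := by
      refine Finset.sum_congr rfl fun i _ => ?_
      congr 1; push_cast; ring
    have h4 : ((n : ℤ) - (b + 1)) / (n : ℤ) = (((0 : ℕ) : ℤ) - (b + 1)) / (n : ℤ) + 1 := by
      rw [show (n : ℤ) - (b + 1) = (((0 : ℕ) : ℤ) - (b + 1)) + 1 * n by push_cast; ring,
        Int.add_mul_ediv_right _ _ hN.ne']
    rw [h3] at h2
    omega
  have z : ∑ i ∈ range n, ((i : ℤ) - 0) / (n : ℤ) = 0 := by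
    refine Finset.sum_eq_zero fun i hi => ?_
    rw [sub_zero]
    exact Int.ediv_eq_zero_of_lt (by positivity) (by exact_mod_cast Finset.mem_range.1 hi)
  induction b using Int.induction_on with
  | zero => simpa using z
  | succ k ih => rw [step, ih]; ring
  | pred k ih =>
    have := step (-(k : ℤ) - 1)
    rw [show -(k : ℤ) - 1 + 1 = -k by ring, ih] at this
    omega

theorem sum_ph (n : ℕ) (hn : 0 < n) (a L : ℤ) (h0 : 0 ≤ L) (h1 : L ≤ n) :
    ∑ i ∈ range n, ph (n : ℤ) a L i = L := by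
  have hN : (0 : ℤ) < n := by exact_mod_cast hn
  have : ∀ i ∈ range n, ph (n : ℤ) a L i = ((i : ℤ) - a) / n - ((i : ℤ) - (a + L)) / n := by
    intro i _
    rw [ph_eq_div hN h0 h1, show (i : ℤ) - (a + L) = i - a - L by ring]
  rw [Finset.sum_congr rfl this, Finset.sum_sub_distrib, sum_div n hn, sum_div n hn]; ring

/-- a windowed sum -/
theorem sum_window (p a b : ℕ) (hab : a + b ≤ p) (A : ℕ → ℤ) :
    ∑ i ∈ range p, (if a ≤ i ∧ i < a + b then A i else 0) = ∑ j ∈ range b, A (a + j) := by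
  obtain ⟨m, rfl⟩ := Nat.exists_eq_add_of_le hab
  rw [Finset.sum_range_add, Finset.sum_range_add]
  have h1 : ∑ x ∈ range a, (if a ≤ x ∧ x < a + b then A x else 0) = 0 :=
    Finset.sum_eq_zero fun i hi => by
      have := Finset.mem_range.1 hi
      rw [if_neg (by omega)]
  have h2 : ∑ x ∈ range b, (if a ≤ a + x ∧ a + x < a + b then A (a + x) else 0)
      = ∑ x ∈ range b, A (a + x) :=
    Finset.sum_congr rfl fun i hi => by
      have := Finset.mem_range.1 hi
      rw [if_pos (by omega)]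
  have h3 : ∑ x ∈ range m, (if a ≤ a + b + x ∧ a + b + x < a + b then A (a + b + x) else 0) = 0 :=
    Finset.sum_eq_zero fun i hi => by
      rw [if_neg (by omega)]
  rw [h1, h2, h3]; ring

theorem const_of_jump (F : ℤ → ℤ) (h : ∀ x, F x = F (x - 1)) (x y : ℤ) : F x = F y := by
  have : ∀ x, F x = F 0 := by
    intro x
    induction x using Int.induction_on with
    | zero => rfl
    | succ k ih => rw [h, add_sub_cancel_right]; exact ih
    | pred k ih => rw [← h]; exact ih
  rw [this x, this y]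

end Pool.Agent.H98.Flat
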