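import Pool.Agent.H98.Flat.Cfg

/-! Generic configurations, disjointness, coverings. -/

namespace Pool.Agent.H98.Flat

open Finset

theorem ph_succ {N a L x : ℤ} (hN : 0 < N) (h0 : 0 ≤ L) (h1 : L ≤ N) (h : ph N a L x = 1) :
    ph N a L (x + 1) = 1 ∨ N ∣ x + 1 - (a + L) := by
  have j := ph_jump hN h0 h1 (x + 1) (a := a)
  rw [add_sub_cancel_right] at j
  by_cases c : N ∣ x + 1 - (a + L)
  · right; exact c
  · left
    have : dv N (x + 1 - a - L) = 0 := dv_not (by rwa [show x + 1 - a - L = x + 1 - (a + L) by ring])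
    have := dv_nonneg N (x + 1 - a)
    have := ph_le_one N a L (x + 1)
    omega

theorem ph_pred {N a L x : ℤ} (hN : 0 < N) (h0 : 0 ≤ L) (h1 : L ≤ N) (h : ph N a L (x + 1) = 1) :
    ph N a L x = 1 ∨ N ∣ x + 1 - a := by
  have j := ph_jump hN h0 h1 (x + 1) (a := a)
  rw [add_sub_cancel_right] at j
  by_cases c : N ∣ x + 1 - a
  · right; exact c
  · left
    have := dv_not c
    have := dv_nonneg N (x + 1 - a - L)
    have := ph_le_one N a L x
    omega

/-- value of an arc at an explicit offset -/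
theorem ph_at {N a L x t : ℤ} (h : N ∣ x - (a + t)) (t0 : 0 ≤ t) (t1 : t < N) :
    ph N a L x = if t < L then 1 else 0 := by
  unfold ph
  have : (x - a) % N = t := by
    rw [emod_congr (b := t) (by rwa [show x - a - t = x - (a + t) by ring]),
      Int.emod_eq_of_lt t0 t1]
  rw [this]

/-- induction along an arc -/
theorem arc_up {N a L : ℤ} (hN : 0 < N) (hL1 : L ≤ N) (P : ℤ → Prop)
    (per : ∀ x x', N ∣ x - x' → P x → P x')
    (h0 : P a) (hup : ∀ x, ph N a L x = 1 → ph N a L (x + 1) = 1 → P x → P (x + 1)) :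
    ∀ x, ph N a L x = 1 → P x := by
  have key : ∀ t : ℕ, (t : ℤ) < L → P (a + t) := by
    intro t
    induction t with
    | zero => intro _; simpa using h0
    | succ t ih =>
      intro ht
      push_cast at ht ⊢
      have h1 := ph_at (N := N) (a := a) (L := L) (x := a + t) (t := t) (by simp) (by omega)
        (by omega)
      have h2 := ph_at (N := N) (a := a) (L := L) (x := a + t + 1) (t := t + 1)
        (by rw [show a + (t : ℤ) + 1 - (a + (t + 1)) = 0 by ring]; simp) (by omega)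
        (by omega)
      rw [if_pos (by omega)] at h1 h2
      have := hup _ h1 h2 (ih (by omega))
      rwa [← add_assoc]
  intro x hx
  have hx' := ph_eq_one_iff.1 hx
  have l := Int.emod_nonneg (x - a) hN.ne'
  refine per (a + ((x - a) % N).toNat) x ?_ (key _ (by omega))
  have e := Int.emod_add_mul_ediv (x - a) N
  exact ⟨-((x - a) / N), by rw [mul_neg]; omega⟩

theorem arc_induct {N a L : ℤ} (hN : 0 < N) (hL1 : L ≤ N) (P : ℤ → Prop)
    (per : ∀ x x', N ∣ x - x' → P x → P x') {x0 : ℤ} (hx0 : ph N a L x0 = 1)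
    (h0 : P x0) (hup : ∀ x, ph N a L x = 1 → ph N a L (x + 1) = 1 → P x → P (x + 1))
    (hdown : ∀ x, ph N a L x = 1 → ph N a L (x + 1) = 1 → P (x + 1) → P x) :
    ∀ x, ph N a L x = 1 → P x := by
  refine arc_up hN hL1 P per ?_ hup
  have hx' := ph_eq_one_iff.1 hx0
  have l := Int.emod_nonneg (x0 - a) hN.ne'
  have e := Int.emod_add_mul_ediv (x0 - a) N
  have key : ∀ s : ℕ, (s : ℤ) ≤ (x0 - a) % N → P (a + (x0 - a) % N - s) := by
    intro s
    induction s with
    | zero =>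
      intro _
      refine per x0 _ ⟨(x0 - a) / N, ?_⟩ h0
      push_cast; omega
    | succ s ih =>
      intro hs
      push_cast at hs ⊢
      have := ih (by omega)
      refine hdown _ ?_ ?_ ?_
      · rw [ph_at (t := (x0 - a) % N - s - 1)
          (by rw [show a + (x0 - a) % N - (↑s + 1) - (a + ((x0 - a) % N - ↑s - 1)) = 0 by ring]; simp)
          (by omega) (by omega), if_pos (by omega)]
      · rw [ph_at (t := (x0 - a) % N - s)
          (by rw [show a + (x0 - a) % N - (↑s + 1) + 1 - (a + ((x0 - a) % N - ↑s)) = 0 by ring]; simp)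
          (by omega) (by omega), if_pos (by omega)]
      · rwa [show a + (x0 - a) % N - (↑s + 1) + 1 = a + (x0 - a) % N - s by ring]
  have := key ((x0 - a) % N).toNat (by omega)
  rwa [Int.toNat_of_nonneg l, add_sub_cancel_right] at this

namespace Cfg

variable {C : Cfg}

structure Gen (C : Cfg) : Prop where
  UU : ∀ i j, C.N ∣ C.U i - C.U j → (C.p : ℤ) ∣ i - j
  UW : ∀ i j, ¬ C.N ∣ C.U i - (C.U j + C.W)
  VV : ∀ i j, C.N ∣ C.V i - C.V j → (C.p : ℤ) ∣ i - j
  VH : ∀ i j, ¬ C.N ∣ C.V i - (C.V j - C.H)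

/-- the cell `(u,v)` belongs to rectangle `k` -/
def In (C : Cfg) (k u v : ℤ) : Prop := C.hor k u = 1 ∧ C.ver k v = 1

def Disj (C : Cfg) : Prop := ∀ u v, C.R u v ≤ 1

def IsFlat (C : Cfg) : Prop := ∀ u v y, |C.R u v - C.g y u + C.f y v| ≤ 1

theorem hor01 (k u : ℤ) : C.hor k u = 0 ∨ C.hor k u = 1 := by
  unfold hor ph; split_ifs <;> simp
theorem ver01 (k u : ℤ) : C.ver k u = 0 ∨ C.ver k u = 1 := by
  unfold ver ph; split_ifs <;> simp

theorem In_congr {k j u u' v v' : ℤ} (h : (C.p : ℤ) ∣ k - j) (hu : C.N ∣ u - u')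
    (hv : C.N ∣ v - v') (a : C.In k u v) : C.In j u' v' :=
  ⟨by rw [← C.hor_congr h hu]; exact a.1, by rw [← C.ver_congr h hv]; exact a.2⟩

theorem exists_mod (C : Cfg) (k : ℤ) : ∃ i, i < C.p ∧ (C.p : ℤ) ∣ k - (i : ℕ) := by
  have hp : (0 : ℤ) < C.p := by exact_mod_cast C.p_pos
  have l := Int.emod_nonneg k hp.ne'
  have u := Int.emod_lt_of_pos k hp
  refine ⟨(k % C.p).toNat, by omega, ?_⟩
  rw [Int.toNat_of_nonneg l]
  exact Int.dvd_self_sub_emod

theorem R_pos_of_In {k u v : ℤ} (a : C.In k u v) : 1 ≤ C.R u v := by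
  obtain ⟨i, hi, hk⟩ := C.exists_mod k
  have a' := In_congr hk (dvd_refl _ |>.trans (by simp : C.N ∣ u - u)) (by simp : C.N ∣ v - v) a
  unfold R
  have : C.hor i u * C.ver i v = 1 := by rw [a'.1, a'.2]; rfl
  rw [← this]
  exact Finset.single_le_sum (f := fun k : ℕ => C.hor k u * C.ver k v)
    (fun _ _ => mul_nonneg (ph_nonneg _ _ _ _) (ph_nonneg _ _ _ _)) (Finset.mem_range.2 hi)

theorem exists_In {u v : ℤ} (h : 1 ≤ C.R u v) : ∃ k, C.In k u v := by
  by_contra c
  push Not at c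
  have : C.R u v = 0 := by
    unfold R
    refine Finset.sum_eq_zero fun i _ => ?_
    rcases C.hor01 i u with a | a
    · rw [a]; simp
    · rcases C.ver01 i v with b | b
      · rw [b]; simp
      · exact absurd ⟨a, b⟩ (c i)
  omega

theorem disj_eq (hd : C.Disj) {k j u v : ℤ} (a : C.In k u v) (b : C.In j u v) :
    (C.p : ℤ) ∣ k - j := by
  obtain ⟨i, hi, hk⟩ := C.exists_mod k
  obtain ⟨i', hi', hj⟩ := C.exists_mod j
  have a' := In_congr hk (by simp : C.N ∣ u - u) (by simp : C.N ∣ v - v) a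
  have b' := In_congr hj (by simp : C.N ∣ u - u) (by simp : C.N ∣ v - v) b
  by_cases e : i = i'
  · subst e
    have := dvd_sub hk hj
    rwa [show k - (i : ℤ) - (j - i) = k - j by ring] at this
  · exfalso
    have h1 : C.hor i u * C.ver i v = 1 := by rw [a'.1, a'.2]; rfl
    have h2 : C.hor i' u * C.ver i' v = 1 := by rw [b'.1, b'.2]; rfl
    have h3 : ∑ k ∈ ({i, i'} : Finset ℕ), C.hor k u * C.ver k v ≤ C.R u v := by
      unfold R
      refine Finset.sum_le_sum_of_subset_of_nonneg ?_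
        (fun _ _ _ => mul_nonneg (ph_nonneg _ _ _ _) (ph_nonneg _ _ _ _))
      intro x hx
      simp only [Finset.mem_insert, Finset.mem_singleton] at hx
      rcases hx with rfl | rfl
      · exact Finset.mem_range.2 hi
      · exact Finset.mem_range.2 hi'
    rw [Finset.sum_pair e, h1, h2] at h3
    have := hd u v
    omega

theorem near_hor (G : Gen C) {k j u : ℤ} (a : C.hor k u = 1) (b : C.hor j (u + 1) = 1) :
    ∃ x, C.hor k x = 1 ∧ C.hor j x = 1 := by
  rcases ph_succ C.N_pos C.W_pos.le C.W_lt.le a with h | h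
  · exact ⟨u + 1, h, b⟩
  rcases ph_pred C.N_pos C.W_pos.le C.W_lt.le b with h' | h'
  · exact ⟨u, a, h'⟩
  · exfalso
    apply G.UW j k
    have := dvd_sub h h'
    rwa [show u + 1 - (C.U k + C.W) - (u + 1 - C.U j) = C.U j - (C.U k + C.W) by ring] at this

theorem near_ver (G : Gen C) {k j v : ℤ} (a : C.ver k v = 1) (b : C.ver j (v + 1) = 1) :
    ∃ x, C.ver k x = 1 ∧ C.ver j x = 1 := by
  rcases ph_succ C.N_pos C.H_pos.le C.H_lt.le a with h | h
  · exact ⟨v + 1, h, b⟩
  rcases ph_pred C.N_pos C.H_pos.le C.H_lt.le b with h' | h'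
  · exact ⟨v, a, h'⟩
  · exfalso
    apply G.VH k j
    have := dvd_sub h' h
    rwa [show v + 1 - (C.V j - C.H) - (v + 1 - (C.V k - C.H + C.H)) = C.V k - (C.V j - C.H) by ring]
      at this

/-- no direct transition -/
theorem near (G : Gen C) (hd : C.Disj) {k j u v : ℤ} (a : C.In k u v)
    (b : C.In j (u + 1) (v + 1)) : (C.p : ℤ) ∣ k - j := by
  obtain ⟨x, hx1, hx2⟩ := near_hor G a.1 b.1
  obtain ⟨y, hy1, hy2⟩ := near_ver G a.2 b.2
  exact disj_eq hd (u := x) (v := y) ⟨hx1, hy1⟩ ⟨hx2, hy2⟩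

theorem near' (G : Gen C) (hd : C.Disj) {k j u v : ℤ} (a : C.In k u v)
    (b : C.In j (u + 1) v) : (C.p : ℤ) ∣ k - j := by
  obtain ⟨x, hx1, hx2⟩ := near_hor G a.1 b.1
  exact disj_eq hd (u := x) (v := v) ⟨hx1, a.2⟩ ⟨hx2, b.2⟩

/-- the strip identity on the upper diagonal of level `y` -/
theorem gid_top (y v : ℤ) : C.g y (v - C.q * y) = C.R (v - C.q * y) v + C.f y v := by
  have hq0 : (0 : ℤ) < C.q := by exact_mod_cast C.hq
  have := C.gid y (v - C.q * y) (C.q * y) (by nlinarith) le_rfl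
  rwa [sub_add_cancel] at this

theorem exists_of_sum_pos {n : ℕ} {F : ℕ → ℤ} {N : ℤ} {z : ℕ → ℤ} (hF : ∀ i, F i = dv N (z i))
    (h : 1 ≤ ∑ i ∈ range n, F i) : ∃ i, i < n ∧ N ∣ z i := by
  by_contra c
  push Not at c
  have : ∑ i ∈ range n, F i = 0 := Finset.sum_eq_zero fun i hi => by
    rw [hF, dv_not (c i (Finset.mem_range.1 hi))]
  omega

theorem sum_dv_pos {n : ℕ} {F : ℕ → ℤ} {N : ℤ} {z : ℕ → ℤ} (hF : ∀ i, F i = dv N (z i))
    {i : ℕ} (hi : i < n) (h : N ∣ z i) : 1 ≤ ∑ i ∈ range n, F i := by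
  have : F i = 1 := by rw [hF, dv_of h]
  rw [← this]
  exact Finset.single_le_sum (f := F) (fun j _ => by rw [hF]; exact dv_nonneg _ _)
    (Finset.mem_range.2 hi)

theorem sum_dv_zero {n : ℕ} {F : ℕ → ℤ} {N : ℤ} {z : ℕ → ℤ} (hF : ∀ i, F i = dv N (z i))
    (h : ∀ i, ¬ N ∣ z i) : ∑ i ∈ range n, F i = 0 :=
  Finset.sum_eq_zero fun i _ => by rw [hF, dv_not (h i)]

theorem f_up {y v : ℤ} (h : C.f y (v - 1) < C.f y v) :
    ∃ i : ℕ, i < C.w ∧ C.N ∣ v - C.V (y + i) := by
  have j := C.f_jump y v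
  have : 0 ≤ ∑ i ∈ range C.w, dv C.N (v - (C.V (y + C.h + i) - C.H)) :=
    Finset.sum_nonneg fun _ _ => dv_nonneg _ _
  exact exists_of_sum_pos (N := C.N) (z := fun i : ℕ => v - C.V (y + i)) (fun _ => rfl)
    (n := C.w) (by omega)

theorem f_down {y v : ℤ} (h : C.f y v < C.f y (v - 1)) :
    ∃ i : ℕ, i < C.w ∧ C.N ∣ v - (C.V (y + C.h + i) - C.H) := by
  have j := C.f_jump y v
  have : 0 ≤ ∑ i ∈ range C.w, dv C.N (v - C.V (y + i)) :=
    Finset.sum_nonneg fun _ _ => dv_nonneg _ _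
  exact exists_of_sum_pos (N := C.N) (z := fun i : ℕ => v - (C.V (y + C.h + i) - C.H))
    (fun _ => rfl) (n := C.w) (by omega)

/-- at the letter `V k`, `k` in the window, `f` goes up -/
theorem f_up_of (G : Gen C) {y v : ℤ} {i : ℕ} (hi : i < C.w) (h : C.N ∣ v - C.V (y + i)) :
    C.f y (v - 1) + 1 ≤ C.f y v := by
  have j := C.f_jump y v
  have h1 := sum_dv_pos (N := C.N) (z := fun i : ℕ => v - C.V (y + i)) (fun _ => rfl) hi h
  have h2 := sum_dv_zero (N := C.N) (n := C.w) (z := fun i : ℕ => v - (C.V (y + C.h + i) - C.H))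
    (fun _ => rfl) (fun i' hc => by
      apply G.VH (y + i) (y + C.h + i')
      have := dvd_sub hc h
      rwa [show v - (C.V (y + C.h + i') - C.H) - (v - C.V (y + i))
        = C.V (y + i) - (C.V (y + C.h + i') - C.H) by ring] at this)
  omega

theorem f_down_of (G : Gen C) {y v : ℤ} {i : ℕ} (hi : i < C.w)
    (h : C.N ∣ v - (C.V (y + C.h + i) - C.H)) : C.f y v + 1 ≤ C.f y (v - 1) := by
  have j := C.f_jump y v
  have h1 := sum_dv_pos (N := C.N) (z := fun i : ℕ => v - (C.V (y + C.h + i) - C.H))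
    (fun _ => rfl) hi h
  have h2 := sum_dv_zero (N := C.N) (n := C.w) (z := fun i : ℕ => v - C.V (y + i))
    (fun _ => rfl) (fun i' hc => by
      apply G.VH (y + i') (y + C.h + i)
      have := dvd_sub h hc
      rwa [show v - (C.V (y + C.h + i) - C.H) - (v - C.V (y + i'))
        = C.V (y + i') - (C.V (y + C.h + i) - C.H) by ring] at this)
  omega

/-- at the letter `U k + W`, `k - w` in the window, `g` goes down -/
theorem g_down_of (G : Gen C) {y u : ℤ} {i : ℕ} (hi : i < C.h)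
    (h : C.N ∣ u - (C.U (y + C.w + i) + C.W)) : C.g y u + 1 ≤ C.g y (u - 1) := by
  have j := C.g_jump y u
  have h1 := sum_dv_pos (N := C.N) (z := fun i : ℕ => u - (C.U (y + C.w + i) + C.W))
    (fun _ => rfl) hi h
  have h2 := sum_dv_zero (N := C.N) (n := C.h) (z := fun i : ℕ => u - C.U (y + i))
    (fun _ => rfl) (fun i' hc => by
      apply G.UW (y + i') (y + C.w + i)
      have := dvd_sub h hc
      rwa [show u - (C.U (y + C.w + i) + C.W) - (u - C.U (y + i'))
        = C.U (y + i') - (C.U (y + C.w + i) + C.W) by ring] at this)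
  omega

theorem g_up_of (G : Gen C) {y u : ℤ} {i : ℕ} (hi : i < C.h)
    (h : C.N ∣ u - C.U (y + i)) : C.g y (u - 1) + 1 ≤ C.g y u := by
  have j := C.g_jump y u
  have h1 := sum_dv_pos (N := C.N) (z := fun i : ℕ => u - C.U (y + i))
    (fun _ => rfl) hi h
  have h2 := sum_dv_zero (N := C.N) (n := C.h) (z := fun i : ℕ => u - (C.U (y + C.w + i) + C.W))
    (fun _ => rfl) (fun i' hc => by
      apply G.UW (y + i) (y + C.w + i')
      have := dvd_sub hc h
      rwa [show u - (C.U (y + C.w + i') + C.W) - (u - C.U (y + i))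
        = C.U (y + i) - (C.U (y + C.w + i') + C.W) by ring] at this)
  omega

end Cfg

end Pool.Agent.H98.Flat
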