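import Pool.Agent.H98.Flat.Count

/-! The final cases, and the main theorem: disjoint configurations are not flat. -/

namespace Pool.Agent.H98.Flat

open Finset

namespace Cfg

variable {C : Cfg}

theorem sum_f_levels (e v : ℤ) : ∑ i ∈ range C.p, C.f (e - i) v = C.w * C.M v := by
  rw [sum_rev (fun y => C.f y v) (fun k => C.f_congr (by simp) (by simp))]
  unfold f
  rw [Finset.sum_comm]
  have : ∀ j ∈ range C.w, ∑ x ∈ range C.p, ph C.N (C.V (x + j)) (C.ell (x + j)) v = C.M v := by
    intro j _
    exact sum_shift' (fun k => ph C.N (C.V k) (C.ell k) v)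
      (fun k => C.arcV_congr (by simp) (by simp)) j
  rw [Finset.sum_congr rfl this]
  simp

theorem sum_S1_levels (e u : ℤ) : ∑ i ∈ range C.p, C.S1 (e - i) u = C.w * C.T u := by
  rw [sum_rev (fun y => C.S1 y u) (fun k => by
    unfold S1
    refine Finset.sum_congr rfl fun i _ => ?_
    exact C.arcU_congr (by rw [show k + C.p + i - (k + i) = (C.p : ℤ) by ring]) (by simp))]
  unfold S1
  rw [Finset.sum_comm]
  have : ∀ j ∈ range C.w, ∑ x ∈ range C.p, ph C.N (C.U (x + j)) (C.ell (x + j)) u = C.T u := by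
    intro j _
    exact sum_shift' (fun k => ph C.N (C.U k) (C.ell k) u)
      (fun k => C.arcU_congr (by simp) (by simp)) j
  rw [Finset.sum_congr rfl this]
  simp

theorem ver_top (e : ℤ) : C.ver e (C.V e - 1) = 1 := by
  unfold ver
  have := C.H_pos
  have := C.H_lt
  rw [ph_at (t := C.H - 1) _ (by omega) (by omega), if_pos (by omega)]
  exact ⟨0, by ring⟩

theorem ver_bot (e : ℤ) : C.ver e (C.V e - C.H) = 1 := by
  unfold ver
  rw [ph_at (t := 0) (by simp) le_rfl C.N_pos, if_pos C.H_pos]

/-- columns estimate -/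
theorem col_est (G : Gen C) (hfl : C.IsFlat) (ht : C.TV (fun _ => 0)) (e : ℤ) :
    C.w * C.M (C.V e - 1) + C.w ≤ C.w * C.T 0 + C.h := by
  have hN := C.N_pos
  have hq := C.q_pos
  have hwh := C.hwh
  have key : ∀ i ∈ range C.p, C.f (e - i) (C.V e - 1) + (if 0 ≤ i ∧ i < 0 + C.w then 1 else 0)
      ≤ C.S1 (e - i) (C.U e) + (if C.w ≤ i ∧ i < C.w + C.h then 1 else 0) := by
    intro i hi
    have hi := Finset.mem_range.1 hi
    have hS := S1_nonneg (C := C) (e - i) (C.U e)
    by_cases c : i < C.w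
    · have h1 : C.f (e - i) (C.V e - 1) = 0 := by
        have hI : C.In e (C.V e - 1 - C.q * (e - i - 1)) (C.V e - 1) := by
          refine ⟨?_, ver_top e⟩
          unfold hor
          have h2 := q_step (C := C) c
          have h3 := q_step (C := C) hi
          rw [C.q_p] at h3
          have h4 : (0 : ℤ) ≤ C.q * i := by positivity
          rw [ph_at (t := C.q * i + C.q - 1) _ (by omega) (by omega),
            if_pos (by unfold W; omega)]
          exact ⟨0, by unfold V; ring⟩
        have := (cov_vals ht (y := e - i) (u := C.V e - 1 - C.q * (e - i - 1))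
          (s := C.q * (e - i - 1)) le_rfl (by nlinarith) (by rwa [sub_add_cancel])).2
        rwa [sub_add_cancel] at this
      have h2 : 1 ≤ C.S1 (e - i) (C.U e) := by
        apply S1_ge (C := C) (i := i) c
        rw [sub_add_cancel]
        exact arc_self G e
      rw [h1, if_pos (by omega), if_neg (by omega)]
      omega
    · rw [if_neg (by omega)]
      have hf := (fb ht (e - i) (C.V e - 1)).2
      by_cases c1 : 1 ≤ C.f (e - i) (C.V e - 1)
      · have hF := full_of_f hfl (ver_top e) c1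
        rcases full_level G ht hi (by simp) hF with h | h
        · split_ifs <;> omega
        · rw [if_pos h]; omega
      · have hnn := C.f_nonneg (e - i) (C.V e - 1)
        split_ifs <;> omega
  have hs := Finset.sum_le_sum key
  rw [Finset.sum_add_distrib, Finset.sum_add_distrib, sum_f_levels, sum_S1_levels,
    sum_window C.p 0 C.w (by omega) (fun _ => (1 : ℤ)),
    sum_window C.p C.w C.h hwh (fun _ => (1 : ℤ)), T_const (C.U e) 0] at hs
  simpa using hs

theorem case_a (G : Gen C) (hfl : C.IsFlat) (ht : C.TV (fun _ => 0)) (hwh : C.h < C.w) : False := by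
  have hN := C.N_pos
  have hw0 : (0 : ℤ) < C.w := by exact_mod_cast C.hw
  have hlt : (C.h : ℤ) < C.w := by exact_mod_cast hwh
  have key : ∀ e, C.M (C.V e - 1) + 1 ≤ C.T 0 := by
    intro e
    have := col_est G hfl ht e
    by_contra hc
    have h1 : C.T 0 ≤ C.M (C.V e - 1) := by omega
    nlinarith
  have up : ∀ n : ℕ, C.M (C.V 0 - 1 + n) ≤ C.T 0 := by
    intro n
    induction n with
    | zero => have := key 0; simp; omega
    | succ n ih =>
      set v := C.V 0 - 1 + ((n + 1 : ℕ) : ℤ) with hv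
      have e1 : C.V 0 - 1 + (n : ℤ) = v - 1 := by rw [hv]; push_cast; ring
      rw [e1] at ih
      have hj := M_jump (C := C) v
      have h1 := sumV_le_one G v
      have h2 : 0 ≤ ∑ k ∈ range C.p, dv C.N (v + C.H - C.V k) :=
        Finset.sum_nonneg fun _ _ => dv_nonneg _ _
      by_cases c : ∃ k : ℕ, k < C.p ∧ C.N ∣ v - C.V k
      · obtain ⟨k, _, hk⟩ := c
        have h3 := key k
        have h4 : C.M (v - 1) = C.M (C.V k - 1) := by
          unfold M
          refine Finset.sum_congr rfl fun i _ => ?_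
          refine C.arcV_congr (by simp) ?_
          rwa [show v - 1 - (C.V k - 1) = v - C.V k by ring]
        omega
      · push Not at c
        have : ∑ k ∈ range C.p, dv C.N (v - C.V k) = 0 := Finset.sum_eq_zero fun i hi =>
          dv_not (c i (Finset.mem_range.1 hi))
        omega
  have all : ∀ v, C.M v ≤ C.T 0 := by
    intro v
    obtain ⟨n, hn⟩ := exists_hit (C := C) hN (C.V 0 - 1) v
    have : C.M v = C.M (C.V 0 - 1 + n) := by
      unfold M
      exact Finset.sum_congr rfl fun i _ => C.arcV_congr (by simp) ((dvd_sub_comm).1 hn)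
    rw [this]; exact up n
  have hs := sum_M' (C := C)
  have hlt : ∑ x ∈ range (C.p * C.q), C.M x < ∑ x ∈ range (C.p * C.q), C.T 0 := by
    refine Finset.sum_lt_sum (fun x _ => all x) ?_
    refine ⟨((C.V 0 - 1) % C.N).toNat, ?_, ?_⟩
    · rw [Finset.mem_range]
      have l := Int.emod_nonneg (C.V 0 - 1) hN.ne'
      have u := Int.emod_lt_of_pos (C.V 0 - 1) hN
      have := C.N_eq
      omega
    · rw [Int.toNat_of_nonneg (Int.emod_nonneg _ hN.ne')]
      have : C.M ((C.V 0 - 1) % C.N) = C.M (C.V 0 - 1) := by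
        unfold M
        refine Finset.sum_congr rfl fun i _ => C.arcV_congr (by simp) ?_
        exact (dvd_sub_comm).1 Int.dvd_self_sub_emod
      have := key 0
      omega
  rw [hs, Finset.sum_const, Finset.card_range, nsmul_eq_mul, C.N_eq] at hlt
  omega

theorem ell_bound (ht : C.TV (fun _ => 0)) (k : ℤ) : C.ell k + C.h * C.W ≤ C.N := by
  have h1 := sum_g (C := C) k
  have h2 : ∑ x ∈ range (C.p * C.q), C.g k (x : ℤ) ≤ ∑ x ∈ range (C.p * C.q), (1 : ℤ) :=
    Finset.sum_le_sum fun x _ => by have := (gb ht k x).2; omega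
  rw [Finset.sum_const, Finset.card_range, nsmul_eq_mul, C.N_eq, mul_one] at h2
  have h3 : C.ell (k + (0 : ℕ)) ≤ ∑ i ∈ range C.w, C.ell (k + i) :=
    Finset.single_le_sum (f := fun i : ℕ => C.ell (k + i)) (fun _ _ => C.ell_nonneg _)
      (Finset.mem_range.2 C.hw)
  rw [Nat.cast_zero, add_zero] at h3
  omega

theorem D_V (G : Gen C) (ht : C.TV (fun _ => 0)) {y u : ℤ} (hV : C.VRow y)
    (hu : ph C.N (C.U y) (C.ell y) u = 1) : C.g (y + 1) u = 0 := by
  have F := rowFacts G ht y
  have h1 := D_row F (u := u)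
  have h2 := arc_row F (u := u)
  rw [hu] at h2
  have h3 : C.tx y ≤ (u - C.A y) % C.N ∧ (u - C.A y) % C.N < C.tb y := by
    by_contra hc; rw [if_neg hc] at h2; omega
  unfold VRow at hV
  rw [if_neg (by omega), if_pos h3] at h1
  have h4 := C.g_step y u
  have := (gb ht y u).2
  have := (gb ht (y + 1) u).1
  omega

/-- the structure lemma in the all-V case -/
theorem struct (G : Gen C) (hfl : C.IsFlat) (ht : C.TV (fun _ => 0)) (hV : ∀ y, C.VRow y)
    {e v : ℤ} {m : ℕ} (hm : m < C.p) (hmh : C.h < m) (hv : C.ver e v = 1)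
    (ha : ph C.N (C.V (e - m)) (C.ell (e - m)) v = 1) :
    ph C.N (C.U (e - m)) (C.ell (e - m)) (C.U e) = 1 := by
  by_contra hne
  have hwh := C.hwh
  have hw := C.hw
  have hh := C.hh
  -- full levels
  have full : ∀ j : ℕ, j < C.w → C.Full e (e - m - j) := by
    intro j hj
    apply full_of_f hfl hv
    unfold f
    have : ph C.N (C.V (e - m - j + (j : ℕ))) (C.ell (e - m - j + (j : ℕ))) v = 1 := by
      rw [sub_add_cancel]; exact ha
    rw [← this]
    exact Finset.single_le_sum
      (f := fun i : ℕ => ph C.N (C.V (e - m - j + i)) (C.ell (e - m - j + i)) v)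
      (fun _ _ => ph_nonneg _ _ _ _) (Finset.mem_range.2 hj)
  have g1 : ∀ y, C.S1 y (C.U e) + C.S2 y (C.U e) ≤ 1 := by
    intro y
    have := (gb ht y (C.U e)).2
    rw [g_eq] at this
    omega
  -- case (ii)
  have caseii : m < C.w + C.h → False := by
    intro hmwh
    have F2 := full (C.w + C.h - m) (by omega)
    have ey : e - m - ((C.w + C.h - m : ℕ) : ℤ) = e - C.w - C.h := by omega
    rw [ey] at F2
    have s2 : 1 ≤ C.S2 (e - C.w - C.h + 1) (C.U e) := by
      apply S2_ge (C := C) (i := C.h - 1) (by omega)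
      rw [show e - C.w - C.h + 1 + C.w + ((C.h - 1 : ℕ) : ℤ) = e by omega]
      exact hor_U e
    have gg := g1 (e - C.w - C.h + 1)
    have nn := S1_nonneg (C := C) (e - C.w - C.h + 1) (C.U e)
    have s1 : 1 ≤ C.S1 (e - C.w - C.h) (C.U e) := by
      by_cases hp : C.w + C.h = C.p
      · rcases full_level G ht (r := 0) C.p_pos (by
          rw [show e - (e - C.w - C.h + ((0 : ℕ) : ℤ)) = ((C.w + C.h : ℕ) : ℤ) by push_cast; ring, hp]) F2
          with h | h
        · exact h
        · omega
      · rcases full_level G ht (r := C.w + C.h) (by omega) (by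
          rw [show e - (e - C.w - C.h + ((C.w + C.h : ℕ) : ℤ)) = 0 by push_cast; ring]
          simp) F2 with h | h
        · exact h
        · omega
    obtain ⟨j, hj, hj1⟩ := exists_S1 s1
    by_cases hj0 : j = 0
    · subst hj0
      rw [Nat.cast_zero, add_zero] at hj1
      have := D_V G ht (hV _) hj1
      rw [g_eq] at this
      omega
    · have : 1 ≤ C.S1 (e - C.w - C.h + 1) (C.U e) := by
        apply S1_ge (C := C) (i := j - 1) (by omega)
        rw [show e - C.w - C.h + 1 + ((j - 1 : ℕ) : ℤ) = e - C.w - C.h + j by omega]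
        exact hj1
      omega
  have F0 := full 0 hw
  rw [Nat.cast_zero, sub_zero] at F0
  rcases full_level G ht (r := m) hm (by simp) F0 with h | h
  · obtain ⟨j, hj, hj1⟩ := exists_S1 h
    by_cases hj0 : j = 0
    · subst hj0
      rw [Nat.cast_zero, add_zero] at hj1
      exact hne hj1
    by_cases hjm : j = m
    · exact caseii (by omega)
    -- k' = e - m + j, level y1 = k' - w
    have F1 := full (C.w - j) (by omega)
    obtain ⟨y1, hy1⟩ : ∃ y1, y1 = e - m + j - (C.w : ℤ) := ⟨_, rfl⟩
    rw [show e - m - ((C.w - j : ℕ) : ℤ) = y1 by omega] at F1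
    have t1 : ph C.N (C.U (y1 + 1 + ((C.w - 1 : ℕ) : ℤ))) (C.ell (y1 + 1 + ((C.w - 1 : ℕ) : ℤ)))
        (C.U e) = 1 := by
      rw [show y1 + 1 + ((C.w - 1 : ℕ) : ℤ) = e - m + j by omega]; exact hj1
    have s1 : 1 ≤ C.S1 (y1 + 1) (C.U e) := S1_ge (C := C) (by omega) t1
    have gg := g1 (y1 + 1)
    have n2 := S2_nonneg (C := C) (y1 + 1) (C.U e)
    obtain ⟨r, hr, hrd⟩ := C.exists_mod (e - y1)
    rcases full_level G ht (r := r) hr (by rwa [show e - (y1 + r) = e - y1 - r by ring]) F1
      with h' | h'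
    · obtain ⟨j', hj', hj1'⟩ := exists_S1 h'
      by_cases hj0' : j' = 0
      · subst hj0'
        rw [Nat.cast_zero, add_zero] at hj1'
        have := D_V G ht (hV _) hj1'
        rw [g_eq] at this
        omega
      · have : 2 ≤ C.S1 (y1 + 1) (C.U e) := by
          apply S1_ge_two (C := C) (i := C.w - 1) (j := j' - 1) (by omega) (by omega) (by omega) t1
          rw [show y1 + 1 + ((j' - 1 : ℕ) : ℤ) = y1 + j' by omega]
          exact hj1'
        omega
    · by_cases hrw : r = C.w
      · subst hrw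
        have h5 : (C.p : ℤ) ∣ (m : ℤ) - j := by
          rwa [show e - y1 - (C.w : ℤ) = (m : ℤ) - j by rw [hy1]; ring] at hrd
        have h6 : |(m : ℤ) - j| < C.p := by rw [abs_lt]; constructor <;> omega
        have := Int.eq_zero_of_abs_lt_dvd h5 h6
        omega
      · have : 1 ≤ C.S2 (y1 + 1) (C.U e) := by
          apply S2_ge (C := C) (i := r - 1 - C.w) (by omega)
          rw [show y1 + 1 + C.w + ((r - 1 - C.w : ℕ) : ℤ) = y1 + r by omega]
          rw [C.hor_congr (k := y1 + r) (j := e) (u := C.U e) (u' := C.U e) ?_ (by simp)]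
          · exact hor_U e
          · apply (dvd_sub_comm).1
            rwa [show e - (y1 + r) = e - y1 - r by ring]
        omega
  · exact caseii h.2

theorem case_d (G : Gen C) (hfl : C.IsFlat) (ht : C.TV (fun _ => 0)) (hV : ∀ y, C.VRow y)
    (hw2 : 2 ≤ C.w) : False := by
  have hN := C.N_pos
  have hH := C.H_pos
  have hHl := C.H_lt
  have hwh := C.hwh
  have hh := C.hh
  have hq := C.q_pos
  have lb : ∀ k, C.ell k + 2 * C.H ≤ C.N := by
    intro k
    have h1 := ell_bound ht k
    have h2 : (2 : ℤ) ≤ C.w := by exact_mod_cast hw2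
    have h3 : (0 : ℤ) < C.h := by exact_mod_cast hh
    have h4 : (0 : ℤ) < C.q * C.h := mul_pos hq h3
    have h5 : 2 * C.H ≤ C.h * C.W := by unfold H W; nlinarith
    omega
  set e : ℤ := 0 with he
  have key : ∀ m ∈ range C.p,
      ph C.N (C.V (e - m)) (C.ell (e - m)) (C.V e - C.H) + C.ver (e - m) (C.V e - C.H)
      ≤ ph C.N (C.U (e - m)) (C.ell (e - m)) (C.U e)
        + (if 1 ≤ m ∧ m < 1 + (C.h - 1) then 1 else 0) := by
    intro m hm
    have hm := Finset.mem_range.1 hm
    have hk := ell_pos G (e - m)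
    have hlb := lb (e - m)
    have a1 := ph_le_one C.N (C.V (e - m)) (C.ell (e - m)) (C.V e - C.H)
    have a0 := ph_nonneg C.N (C.V (e - m)) (C.ell (e - m)) (C.V e - C.H)
    have b1 : C.ver (e - m) (C.V e - C.H) ≤ 1 := ph_le_one _ _ _ _
    have b0 : 0 ≤ C.ver (e - m) (C.V e - C.H) := ph_nonneg _ _ _ _
    have r0 := ph_nonneg C.N (C.U (e - m)) (C.ell (e - m)) (C.U e)
    -- offsets
    have d0 := Int.emod_nonneg (C.V e - C.V (e - m)) hN.ne'
    have dl := Int.emod_lt_of_pos (C.V e - C.V (e - m)) hN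
    have ed := Int.emod_add_mul_ediv (C.V e - C.V (e - m)) C.N
    obtain ⟨d, hd⟩ : ∃ d, d = (C.V e - C.V (e - m)) % C.N := ⟨_, rfl⟩
    rw [← hd] at d0 dl ed
    have verval : C.ver (e - m) (C.V e - C.H) = if d < C.H then 1 else 0 := by
      unfold ver
      rw [ph_at (t := d) _ d0 dl]
      exact ⟨(C.V e - C.V (e - m)) / C.N, by omega⟩
    have arcval1 : d < C.H → ph C.N (C.V (e - m)) (C.ell (e - m)) (C.V e - C.H) = 0 := by
      intro h
      rw [ph_at (t := d - C.H + C.N) _ (by omega) (by omega), if_neg (by omega)]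
      exact ⟨(C.V e - C.V (e - m)) / C.N - 1, by rw [mul_sub]; omega⟩
    by_cases hm0 : m = 0
    · subst hm0
      have e0 : e - ((0 : ℕ) : ℤ) = e := by simp
      have d00 : d = 0 := by rw [hd, e0]; simp
      rw [arcval1 (by omega), e0, arc_self G e]
      rw [e0] at b1
      split_ifs <;> omega
    by_cases c1 : m < C.h
    · rw [if_pos (by omega)]
      by_cases c2 : d < C.H
      · rw [arcval1 c2]; omega
      · rw [verval, if_neg c2]; omega
    rw [if_neg (by omega)]
    by_cases c3 : m = C.h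
    · subst c3
      have h1 : ph C.N (C.V (e - C.h)) (C.ell (e - C.h)) (C.V e - C.H) = 0 := by
        rw [ph_at (t := C.ell (e - C.h)) _ hk.le (C.ell_lt _), if_neg (lt_irrefl _)]
        have := (dvd_sub_comm).1 (C.V_ell (e - C.h))
        rwa [sub_add_cancel] at this
      have h2 : ¬ d < C.H := by
        intro c2
        -- ell = d - H + N
        have : C.ell (e - C.h) = d - C.H + C.N := by
          have h3 := C.V_ell (e - C.h)
          rw [sub_add_cancel] at h3
          have h4 : (C.ell (e - C.h)) % C.N = (d - C.H + C.N) % C.N := by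
            apply emod_congr
            obtain ⟨t, ht'⟩ := h3
            refine ⟨t + (C.V e - C.V (e - C.h)) / C.N - 1, ?_⟩
            rw [mul_sub, mul_add]; omega
          rwa [Int.emod_eq_of_lt (C.ell_nonneg _) (C.ell_lt _),
            Int.emod_eq_of_lt (by omega) (by omega)] at h4
        omega
      rw [h1, verval, if_neg h2]; omega
    · -- m > h
      have hmh : C.h < m := by omega
      by_cases c2 : d < C.H
      · rw [arcval1 c2]
        have dne : d ≠ 0 := by
          intro h0
          have h3 := G.VV _ _ (Int.dvd_of_emod_eq_zero (hd ▸ h0 : (C.V e - C.V (e - m)) % C.N = 0))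
          rw [show e - (e - (m : ℤ)) = m by ring] at h3
          have := Nat.le_of_dvd (by omega) (by exact_mod_cast h3 : C.p ∣ m)
          omega
        have hv : C.ver e (C.V (e - m)) = 1 := by
          unfold ver
          rw [ph_at (t := C.H - d) _ (by omega) (by omega), if_pos (by omega)]
          exact ⟨-((C.V e - C.V (e - m)) / C.N), by rw [mul_neg]; omega⟩
        rw [struct G hfl ht hV hm hmh hv (arcV_self G _)]
        omega
      · rw [verval, if_neg c2]
        by_cases c4 : ph C.N (C.V (e - m)) (C.ell (e - m)) (C.V e - C.H) = 1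
        · rw [struct G hfl ht hV hm hmh (ver_bot e) c4]; omega
        · omega
  have hs := Finset.sum_le_sum key
  rw [Finset.sum_add_distrib, Finset.sum_add_distrib] at hs
  rw [sum_rev (fun k => ph C.N (C.V k) (C.ell k) (C.V e - C.H))
      (fun k => C.arcV_congr (by simp) (by simp)),
    sum_rev (fun k => C.ver k (C.V e - C.H)) (fun k => C.ver_congr (by simp) (by simp)),
    sum_rev (fun k => ph C.N (C.U k) (C.ell k) (C.U e))
      (fun k => C.arcU_congr (by simp) (by simp)),
    sum_window C.p 1 (C.h - 1) (by omega) (fun _ => (1 : ℤ))] at hs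
  have h1 := M_add_nV (C := C) (C.V e - C.H)
  have h2 := T_const (C := C) (C.U e) 0
  unfold M nV at h1
  unfold T at h1 h2
  rw [h2] at hs
  rw [Finset.sum_const, Finset.card_range, nsmul_eq_mul, mul_one] at hs
  omega

theorem TV_refl {c : ℤ → ℤ} (ht : C.TV c) : C.refl.TV (fun y => C.K y - c y - 1) := by
  intro y
  refine ⟨fun v => ?_, fun u => ?_⟩
  · have h1 := g_refl (C := C) y (-v - 1)
    rw [show -(-v - 1) - 1 = v by ring] at h1
    have := (ht y).2 (-v - 1)
    dsimp only
    omega
  · have h1 := f_refl (C := C) y (-u - 1)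
    rw [show -(-u - 1) - 1 = u by ring] at h1
    have := (ht y).1 (-u - 1)
    dsimp only
    omega

theorem case_c (G : Gen C) (ht : C.TV (fun _ => 0)) (ht' : C.refl.TV (fun _ => 0))
    (hwh : C.w = C.h) (hw2 : 2 ≤ C.w) : False := by
  have hN := C.N_pos
  have hq := C.q_pos
  -- K = 1
  have h1 := (cov_vals ht (y := 0) (s := C.q * 0) (by nlinarith) le_rfl (inB 0)).1
  have h2 := g_refl (C := C) 0 (C.U (0 + C.h))
  have hI := inB (C := C) 0
  have hR : 1 ≤ C.refl.R (-(C.U (0 + C.h) + C.q * 0) - 1) (-(C.U (0 + C.h)) - 1) := by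
    rw [refl_R]; exact R_pos_of_In hI
  have h3 := gid' (C := C.refl) 0 (-(C.U (0 + C.h) + C.q * 0) - 1)
  rw [refl_q, show -(C.U (0 + C.h) + C.q * 0) - 1 + C.q * 0 = -(C.U (0 + C.h)) - 1 by ring] at h3
  have h4 := (gb ht' 0 (-(C.U (0 + C.h) + C.q * 0) - 1)).2
  have h5 := (fb ht' 0 (-(C.U (0 + C.h)) - 1)).1
  have hK : C.K 0 = 1 := by omega
  -- sums
  have s1 := sum_g (C := C) 0
  have s2 := sum_f (C := C.refl) 0 0
  have s3 : ∑ x ∈ range (C.p * C.q), C.refl.f 0 (-(x : ℤ) - 1)
      = ∑ x ∈ range (C.p * C.q), C.refl.f 0 (x : ℤ) := by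
    have h := Finset.sum_range_reflect (fun i : ℕ => C.refl.f 0 (i : ℤ)) (C.p * C.q)
    rw [← h]
    refine Finset.sum_congr rfl fun x hx => ?_
    have hx := Finset.mem_range.1 hx
    refine C.refl.f_congr (by simp) ?_
    rw [refl_N]
    have := C.N_eq
    exact ⟨-1, by omega⟩
  have s4 : ∑ x ∈ range (C.p * C.q), (C.g 0 (x : ℤ) + C.refl.f 0 (-(x : ℤ) - 1)) = C.N := by
    rw [Finset.sum_congr rfl fun (x : ℕ) _ => g_refl (C := C) 0 (x : ℤ), Finset.sum_const,
      Finset.card_range, nsmul_eq_mul, C.N_eq, hK, mul_one]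
  rw [Finset.sum_add_distrib, s3, s1] at s4
  rw [refl_p, refl_q, refl_w] at s2
  simp only [add_zero] at s2
  rw [s2] at s4
  have rel : ∀ y, C.ell y + C.refl.ell y = C.N - C.W := by
    intro y
    have F := rowFacts G ht y
    have hWl := C.W_lt
    have hW := C.W_pos
    have e1 : C.refl.ell y = C.tx y := by
      rw [refl_ell]
      unfold tx A V W
      congr 1; ring
    have e2 : C.tb y = C.N - C.W := by
      unfold tb A
      rw [hwh]
      refine ((Int.ediv_emod_unique (q := -1) hN).2 ⟨?_, by omega, by omega⟩).2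
      rw [mul_neg]; omega
    have := F.tb_eq
    omega
  have s5 : ∑ i ∈ range C.w, C.ell (0 + i) + ∑ i ∈ range C.h, C.refl.ell (0 + i)
      = C.w * (C.N - C.W) := by
    rw [← hwh, ← Finset.sum_add_distrib, Finset.sum_congr rfl fun (i : ℕ) _ => rel (0 + (i : ℤ))]
    rw [Finset.sum_const, Finset.card_range, nsmul_eq_mul]
  have h6 : (C.w : ℤ) = C.h := by exact_mod_cast hwh
  have h7 : (C.w : ℤ) * C.N = C.N := by
    rw [← h6] at s4
    linarith [mul_sub (C.w : ℤ) C.N C.W]
  have h8 : (2 : ℤ) ≤ C.w := by exact_mod_cast hw2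
  nlinarith

/-- **Disjoint generic configurations are not flat.** -/
theorem disjoint_not_flat (G : Gen C) (hd : C.Disj) (hfl : C.IsFlat)
    (hw2 : 2 ≤ C.w) (hh2 : 2 ≤ C.h) (cw : Nat.Coprime C.w C.p) (ch : Nat.Coprime C.h C.p) :
    False := by
  choose c hc1 hc2 using two_valued G hd hfl hw2 hh2
  have ht0 : C.TV c := fun y => ⟨hc1 y, hc2 y⟩
  have hcc : c = fun _ => c 0 := funext fun y => TV_const ht0 y
  obtain ⟨c0, hc0⟩ : ∃ c0, c0 = c 0 := ⟨_, rfl⟩
  rw [← hc0] at hcc
  rw [hcc] at ht0
  have ht0' := TV_refl ht0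
  have hcc' : (fun y => C.K y - c0 - 1) = fun _ => C.K 0 - c0 - 1 :=
    funext fun y => TV_const ht0' y
  rw [hcc'] at ht0'
  have G' := gen_refl G
  have hfl' := flat_refl hfl
  by_cases hallV : ∀ y, C.VRow y
  · have : c0 = 0 := c_zero G cw ht0 (hallV 0)
    subst this
    exact case_d G hfl ht0 hallV hw2
  by_cases hallH : ∀ y, C.HRow y
  · have hV' : ∀ y, C.refl.VRow y := fun y => (refl_V_iff (rowFacts G ht0 y)).2 (hallH y)
    have : C.K 0 - c0 - 1 = 0 := c_zero G' ch ht0' (hV' 0)
    rw [this] at ht0'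
    exact case_d G' hfl' ht0' hV' hh2
  push Not at hallV hallH
  obtain ⟨y1, hy1⟩ := hallV
  obtain ⟨y0, hy0⟩ := hallH
  have hV : C.VRow y0 := (V_or_H (rowFacts G ht0 y0)).resolve_right hy0
  have hH : C.HRow y1 := (V_or_H (rowFacts G ht0 y1)).resolve_left hy1
  have hV' : C.refl.VRow y1 := (refl_V_iff (rowFacts G ht0 y1)).2 hH
  have z1 : c0 = 0 := c_zero G cw ht0 hV
  have z2 : C.K 0 - c0 - 1 = 0 := c_zero G' ch ht0' hV'
  rw [z2] at ht0'
  subst z1
  rcases lt_trichotomy C.w C.h with h | h | h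
  · exact case_a G' hfl' ht0' h
  · exact case_c G ht0 ht0' h hw2
  · exact case_a G hfl ht0 h

end Cfg

end Pool.Agent.H98.Flat
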