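import Pool.Agent.H98.Flat.Arc

/-! Configurations of rectangles on the torus, the counting functions `R`, `g`, `f`
and the basic identities. -/

namespace Pool.Agent.H98.Flat

open Finset

structure Cfg where
  p : ℕ
  q : ℕ
  w : ℕ
  h : ℕ
  U : ℤ → ℤ
  hq : 0 < q
  hw : 0 < w
  hh : 0 < h
  hwh : w + h ≤ p
  per : ∀ k, ((p : ℤ) * q) ∣ U (k + p) - U k

namespace Cfg

variable (C : Cfg)

def N : ℤ := (C.p : ℤ) * C.q
def V (k : ℤ) : ℤ := C.U k + C.q * k
def ell (k : ℤ) : ℤ := (C.U (k + C.h) - C.U k) % C.N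
/-- width -/
def W : ℤ := (C.q : ℤ) * C.w
/-- height -/
def H : ℤ := (C.q : ℤ) * C.h
def f (y v : ℤ) : ℤ := ∑ i ∈ range C.w, ph C.N (C.V (y + i)) (C.ell (y + i)) v
def g (y u : ℤ) : ℤ := ∑ i ∈ range C.w, ph C.N (C.U (y + i)) (C.ell (y + i)) u
  + ∑ i ∈ range C.h, ph C.N (C.U (y + C.w + i)) C.W u
def hor (k u : ℤ) : ℤ := ph C.N (C.U k) C.W u
def ver (k v : ℤ) : ℤ := ph C.N (C.V k - C.H) C.H v
def R (u v : ℤ) : ℤ := ∑ k ∈ range C.p, C.hor k u * C.ver k v
def D (y u : ℤ) : ℤ := ph C.N (C.U (y + C.w) + C.W) (C.ell (y + C.w)) u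
  - ph C.N (C.U y) (C.ell y) u

theorem p_pos : 0 < C.p := by have := C.hw; have := C.hwh; omega
theorem N_eq : ((C.p * C.q : ℕ) : ℤ) = C.N := by unfold N; push_cast; rfl
theorem n_pos : 0 < C.p * C.q := Nat.mul_pos C.p_pos C.hq
theorem N_pos : 0 < C.N := by rw [← C.N_eq]; exact_mod_cast C.n_pos
theorem W_pos : 0 < C.W := by
  unfold W; have := C.hq; have := C.hw; positivity
theorem H_pos : 0 < C.H := by
  unfold H; have := C.hq; have := C.hh; positivity
theorem WH_le : C.W + C.H ≤ C.N := by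
  unfold W H N
  have h1 : (C.w : ℤ) + C.h ≤ C.p := by exact_mod_cast C.hwh
  have h2 : (0 : ℤ) ≤ C.q := by positivity
  nlinarith
theorem W_lt : C.W < C.N := by have := C.H_pos; have := C.WH_le; omega
theorem H_lt : C.H < C.N := by have := C.W_pos; have := C.WH_le; omega
theorem ell_nonneg (k : ℤ) : 0 ≤ C.ell k := Int.emod_nonneg _ C.N_pos.ne'
theorem ell_lt (k : ℤ) : C.ell k < C.N := Int.emod_lt_of_pos _ C.N_pos

theorem U_congr {k j : ℤ} (h : (C.p : ℤ) ∣ k - j) : C.N ∣ C.U k - C.U j := by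
  obtain ⟨t, ht⟩ := h
  have hk : k = j + C.p * t := by omega
  rw [hk]
  clear hk ht
  induction t using Int.induction_on with
  | zero => simp
  | succ m ih =>
    have := dvd_add (C.per (j + C.p * m)) ih
    rw [show j + C.p * ((m : ℤ) + 1) = j + C.p * m + C.p by ring]
    simpa [N] using this
  | pred m ih =>
    have := dvd_sub ih (C.per (j + C.p * (-(m : ℤ) - 1)))
    rw [show j + C.p * (-(m : ℤ) - 1) + C.p = j + C.p * (-(m : ℤ)) by ring] at this
    simpa [N] using this

theorem V_congr {k j : ℤ} (h : (C.p : ℤ) ∣ k - j) : C.N ∣ C.V k - C.V j := by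
  have h1 := C.U_congr h
  obtain ⟨t, ht⟩ := h
  have : C.V k - C.V j = (C.U k - C.U j) + C.q * (k - j) := by unfold V; ring
  rw [this, ht]
  exact dvd_add h1 ⟨t, by unfold N; ring⟩

theorem ell_congr {k j : ℤ} (h : (C.p : ℤ) ∣ k - j) : C.ell k = C.ell j := by
  unfold ell
  apply emod_congr
  have h1 := C.U_congr h
  have h2 := C.U_congr (k := k + C.h) (j := j + C.h) (by simpa using h)
  have := dvd_sub h2 h1
  rwa [show C.U (k + C.h) - C.U (j + C.h) - (C.U k - C.U j)
    = C.U (k + C.h) - C.U k - (C.U (j + C.h) - C.U j) by ring] at this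

theorem U_ell (k : ℤ) : C.N ∣ C.U k + C.ell k - C.U (k + C.h) := by
  unfold ell
  have := Int.emod_add_mul_ediv (C.U (k + C.h) - C.U k) C.N
  exact ⟨-((C.U (k + C.h) - C.U k) / C.N), by rw [mul_neg]; omega⟩

theorem V_ell (k : ℤ) : C.N ∣ C.V k + C.ell k - (C.V (k + C.h) - C.H) := by
  have := C.U_ell k
  have e : C.V k + C.ell k - (C.V (k + C.h) - C.H) = C.U k + C.ell k - C.U (k + C.h) := by
    unfold V H; ring
  rw [e]; exact this

theorem hor_congr {k j u u' : ℤ} (h : (C.p : ℤ) ∣ k - j) (hu : C.N ∣ u - u') :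
    C.hor k u = C.hor j u' := by
  unfold hor
  apply ph_congr
  have := dvd_sub hu (C.U_congr h)
  rwa [show u - u' - (C.U k - C.U j) = u - C.U k - (u' - C.U j) by ring] at this

theorem ver_congr {k j u u' : ℤ} (h : (C.p : ℤ) ∣ k - j) (hu : C.N ∣ u - u') :
    C.ver k u = C.ver j u' := by
  unfold ver
  apply ph_congr
  have := dvd_sub hu (C.V_congr h)
  rwa [show u - u' - (C.V k - C.V j) = u - (C.V k - C.H) - (u' - (C.V j - C.H)) by ring] at this

theorem arcU_congr {k j u u' : ℤ} (h : (C.p : ℤ) ∣ k - j) (hu : C.N ∣ u - u') :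
    ph C.N (C.U k) (C.ell k) u = ph C.N (C.U j) (C.ell j) u' := by
  rw [C.ell_congr h]
  apply ph_congr
  have := dvd_sub hu (C.U_congr h)
  rwa [show u - u' - (C.U k - C.U j) = u - C.U k - (u' - C.U j) by ring] at this

theorem arcV_congr {k j u u' : ℤ} (h : (C.p : ℤ) ∣ k - j) (hu : C.N ∣ u - u') :
    ph C.N (C.V k) (C.ell k) u = ph C.N (C.V j) (C.ell j) u' := by
  rw [C.ell_congr h]
  apply ph_congr
  have := dvd_sub hu (C.V_congr h)
  rwa [show u - u' - (C.V k - C.V j) = u - C.V k - (u' - C.V j) by ring] at this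

theorem f_congr {y y' v v' : ℤ} (h : (C.p : ℤ) ∣ y - y') (hv : C.N ∣ v - v') :
    C.f y v = C.f y' v' := by
  unfold f
  refine Finset.sum_congr rfl fun i _ => ?_
  exact C.arcV_congr (by rwa [show y + i - (y' + i) = y - y' by ring]) hv

theorem g_congr {y y' v v' : ℤ} (h : (C.p : ℤ) ∣ y - y') (hv : C.N ∣ v - v') :
    C.g y v = C.g y' v' := by
  unfold g
  congr 1
  · refine Finset.sum_congr rfl fun i _ => ?_
    exact C.arcU_congr (by rwa [show y + i - (y' + i) = y - y' by ring]) hv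
  · refine Finset.sum_congr rfl fun i _ => ?_
    exact C.hor_congr (by rwa [show y + C.w + i - (y' + C.w + i) = y - y' by ring]) hv

theorem R_congr {u u' v v' : ℤ} (hu : C.N ∣ u - u') (hv : C.N ∣ v - v') :
    C.R u v = C.R u' v' := by
  unfold R
  refine Finset.sum_congr rfl fun i _ => ?_
  rw [C.hor_congr (k := i) (j := i) (by simp) hu, C.ver_congr (k := i) (j := i) (by simp) hv]

theorem R_nonneg (u v : ℤ) : 0 ≤ C.R u v :=
  Finset.sum_nonneg fun _ _ => mul_nonneg (ph_nonneg _ _ _ _) (ph_nonneg _ _ _ _)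

theorem f_nonneg (y v : ℤ) : 0 ≤ C.f y v := Finset.sum_nonneg fun _ _ => ph_nonneg _ _ _ _

theorem R_shift (y u v : ℤ) : C.R u v = ∑ i ∈ range C.p, C.hor (y + i) u * C.ver (y + i) v := by
  unfold R
  rw [sum_period C.p (fun k => C.hor k u * C.ver k v)]
  intro k
  rw [C.hor_congr (k := k + C.p) (j := k) (u := u) (u' := u) (by simp) (by simp),
    C.ver_congr (k := k + C.p) (j := k) (u := v) (u' := v) (by simp) (by simp)]

/-- the cell computation -/
theorem cell_aux (N QW QH QI q' d r : ℤ) (i w h : ℕ)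
    (hd0 : 0 ≤ d) (hd1 : d ≤ q') (hq' : 0 ≤ q') (hQI : 0 ≤ QI) (hw0 : 0 < QW) (hh0 : 0 < QH)
    (a1 : i < w → QI + q' ≤ QW) (a2 : w ≤ i → QW ≤ QI)
    (b1 : i < h → QI + q' ≤ QH) (b2 : h ≤ i → QH ≤ QI)
    (c1 : i < w + h → QI + q' ≤ QW + QH) (c2 : w + h ≤ i → QW + QH ≤ QI)
    (e1 : QI + q' ≤ N) (e2 : QW + QH ≤ N) (r0 : 0 ≤ r) (r1 : r < N) (z : ℤ) :
    (if r < QW then (1 : ℤ) else 0) * (if (r - (QI + d) + QH + N * z) % N < QH then 1 else 0)
    = (if 0 ≤ i ∧ i < 0 + w then (if r < QI + d then 1 else 0) else 0)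
      + (if w ≤ i ∧ i < w + h then (if r < QW then 1 else 0) else 0)
      - (if h ≤ i ∧ i < h + w then (if r < QI - QH + d then 1 else 0) else 0) := by
  rw [Int.add_mul_emod_self_left]
  by_cases c : 0 ≤ r - (QI + d) + QH
  · by_cases c' : r - (QI + d) + QH < N
    · rw [Int.emod_eq_of_lt c c']
      split_ifs <;> first | rfl | omega
    · have hr : ¬ r < QW := by omega
      simp only [hr, if_false, zero_mul]
      split_ifs <;> first | rfl | omega
  · have : (r - (QI + d) + QH) % N = r - (QI + d) + QH + N := by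
      refine ((Int.ediv_emod_unique (q := -1) (by omega)).2 ⟨?_, by omega, by omega⟩).2
      rw [mul_neg]; omega
    rw [this]
    split_ifs <;> first | rfl | omega

/-- **the identity** `g = R + f` along level strips -/
theorem gid (y u s : ℤ) (h1 : C.q * (y - 1) ≤ s) (h2 : s ≤ C.q * y) :
    C.g y u = C.R u (u + s) + C.f y (u + s) := by
  have hN := C.N_pos
  have hWH := C.WH_le
  have hW := C.W_pos
  have hH := C.H_pos
  set t : ℕ → ℤ := fun i => C.q * i + (C.q * y - s) with ht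
  have hq0 : (0 : ℤ) < C.q := by exact_mod_cast C.hq
  have d0 : 0 ≤ C.q * y - s := by omega
  have d1 : C.q * y - s ≤ C.q := by nlinarith
  have mono : ∀ a b : ℕ, a ≤ b → (C.q : ℤ) * a ≤ C.q * b := by
    intro a b hab
    have : (a : ℤ) ≤ b := by exact_mod_cast hab
    nlinarith
  have mono' : ∀ a b : ℕ, a < b → (C.q : ℤ) * a + C.q ≤ C.q * b := by
    intro a b hab
    have : (a : ℤ) + 1 ≤ b := by exact_mod_cast hab
    nlinarith
  have tle : ∀ i : ℕ, i < C.p → t i ≤ C.N := by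
    intro i hi
    have := mono' i C.p hi
    have e : (C.q : ℤ) * C.p = C.N := by unfold N; ring
    simp only [ht]; omega
  have t0 : ∀ i : ℕ, 0 ≤ t i := by
    intro i
    have : (0 : ℤ) ≤ C.q * i := by positivity
    simp only [ht]; omega
  -- the R terms
  have key : ∀ i ∈ range C.p, C.hor (y + i) u * C.ver (y + i) (u + s)
      = (if 0 ≤ i ∧ i < 0 + C.w then ph C.N (C.U (y + i)) (t i) u else 0)
      + (if C.w ≤ i ∧ i < C.w + C.h then ph C.N (C.U (y + i)) C.W u else 0)
      - (if C.h ≤ i ∧ i < C.h + C.w then ph C.N (C.U (y + i)) (t i - C.H) u else 0) := by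
    intro i hi
    have hi := Finset.mem_range.1 hi
    have e := Int.emod_add_mul_ediv (u - C.U (y + i)) C.N
    have l := Int.emod_nonneg (u - C.U (y + i)) hN.ne'
    have uu := Int.emod_lt_of_pos (u - C.U (y + i)) hN
    unfold hor ver ph
    have ev : u + s - (C.V (y + i) - C.H)
        = (u - C.U (y + i)) % C.N - (C.q * i + (C.q * y - s)) + C.H
          + C.N * ((u - C.U (y + i)) / C.N) := by
      have : C.V (y + i) = C.U (y + i) + C.q * y + C.q * i := by unfold V; ring
      rw [this]; omega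
    rw [ev]
    have := cell_aux C.N C.W C.H (C.q * i) C.q (C.q * y - s) ((u - C.U (y + i)) % C.N)
      i C.w C.h d0 d1 hq0.le (by positivity) hW hH
      (fun h => mono' _ _ h) (fun h => mono _ _ h) (fun h => mono' _ _ h) (fun h => mono _ _ h)
      (fun h => by have := mono' _ _ h; unfold W H; push_cast at this; nlinarith)
      (fun h => by have := mono _ _ h; unfold W H; push_cast at this; nlinarith)
      (by have := mono' i C.p hi
          have e : (C.q : ℤ) * C.p = C.N := by unfold N; ring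
          omega) hWH l uu ((u - C.U (y + i)) / C.N)
    rw [this]
    simp only [ht]
    rw [show (C.q : ℤ) * i + (C.q * y - s) - C.H = C.q * i - C.H + (C.q * y - s) by ring]
  have hR : C.R u (u + s) = ∑ i ∈ range C.w, ph C.N (C.U (y + i)) (t i) u
      + ∑ i ∈ range C.h, ph C.N (C.U (y + C.w + i)) C.W u
      - ∑ i ∈ range C.w, ph C.N (C.U (y + i + C.h)) (t i) u := by
    rw [C.R_shift y, Finset.sum_congr rfl key, Finset.sum_sub_distrib, Finset.sum_add_distrib,
      sum_window C.p 0 C.w (by have := C.hwh; omega),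
      sum_window C.p C.w C.h C.hwh, sum_window C.p C.h C.w (by have := C.hwh; omega)]
    congr 1
    · congr 1
      · refine Finset.sum_congr rfl fun i _ => ?_
        rw [zero_add]
      · refine Finset.sum_congr rfl fun i _ => ?_
        rw [show y + ((C.w + i : ℕ) : ℤ) = y + C.w + i by push_cast; ring]
    · refine Finset.sum_congr rfl fun i _ => ?_
      rw [show y + ((C.h + i : ℕ) : ℤ) = y + i + C.h by push_cast; ring]
      congr 1
      simp only [ht]; unfold H; push_cast; ring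
  have hf : C.f y (u + s) = ∑ i ∈ range C.w, (ph C.N (C.U (y + i)) (C.ell (y + i)) u
      + ph C.N (C.U (y + i + C.h)) (t i) u - ph C.N (C.U (y + i)) (t i) u) := by
    unfold f
    refine Finset.sum_congr rfl fun i hi => ?_
    have hi := Finset.mem_range.1 hi
    rw [← ph_comm hN (C.ell_nonneg _) (C.ell_lt _).le (t0 i)
      (tle i (by have := C.hwh; omega)) (C.U_ell (y + i))]
    apply ph_congr
    refine ⟨0, ?_⟩
    simp only [ht]; unfold V; ring
  rw [hR, hf, Finset.sum_sub_distrib, Finset.sum_add_distrib]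
  unfold g; ring

theorem g_step (y u : ℤ) : C.g (y + 1) u - C.g y u = C.D y u := by
  unfold g D
  have h1 := Finset.sum_range_succ (fun i : ℕ => ph C.N (C.U (y + i)) (C.ell (y + i)) u) C.w
  have h2 := Finset.sum_range_succ' (fun i : ℕ => ph C.N (C.U (y + i)) (C.ell (y + i)) u) C.w
  have h3 := Finset.sum_range_succ (fun i : ℕ => ph C.N (C.U (y + C.w + i)) C.W u) C.h
  have h4 := Finset.sum_range_succ' (fun i : ℕ => ph C.N (C.U (y + C.w + i)) C.W u) C.h
  have e1 : ∀ i : ℕ, y + 1 + (i : ℤ) = y + ((i + 1 : ℕ) : ℤ) := by intro i; push_cast; ring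
  have e2 : ∀ i : ℕ, y + 1 + C.w + (i : ℤ) = y + C.w + ((i + 1 : ℕ) : ℤ) := by
    intro i; push_cast; ring
  simp only [e2]
  simp only [e1]
  simp only [Nat.cast_zero, add_zero] at h2 h4
  have hc := ph_comm C.N_pos (C.ell_nonneg (y + C.w)) (C.ell_lt (y + C.w)).le C.W_pos.le C.W_lt.le
    (C.U_ell (y + C.w)) u
  omega

theorem f_step (y v : ℤ) : C.f (y + 1) v - C.f y v = C.D y (v - C.q * y) := by
  unfold f D
  have h1 := Finset.sum_range_succ (fun i : ℕ => ph C.N (C.V (y + i)) (C.ell (y + i)) v) C.w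
  have h2 := Finset.sum_range_succ' (fun i : ℕ => ph C.N (C.V (y + i)) (C.ell (y + i)) v) C.w
  have e1 : ∀ i : ℕ, y + 1 + (i : ℤ) = y + ((i + 1 : ℕ) : ℤ) := by intro i; push_cast; ring
  simp only [e1]
  simp only [Nat.cast_zero, add_zero] at h2
  have c1 : ph C.N (C.V (y + C.w)) (C.ell (y + C.w)) v
      = ph C.N (C.U (y + C.w) + C.W) (C.ell (y + C.w)) (v - C.q * y) := by
    apply ph_congr; refine ⟨0, ?_⟩; unfold V W; ring
  have c2 : ph C.N (C.V y) (C.ell y) v = ph C.N (C.U y) (C.ell y) (v - C.q * y) := by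
    apply ph_congr; refine ⟨0, ?_⟩; unfold V; ring
  omega

/-- sum over a period of a residue indicator -/
theorem f_jump (y v : ℤ) : C.f y v - C.f y (v - 1)
    = ∑ i ∈ range C.w, dv C.N (v - C.V (y + i))
      - ∑ i ∈ range C.w, dv C.N (v - (C.V (y + C.h + i) - C.H)) := by
  unfold f
  rw [← Finset.sum_sub_distrib, ← Finset.sum_sub_distrib]
  refine Finset.sum_congr rfl fun i _ => ?_
  rw [ph_jump C.N_pos (C.ell_nonneg _) (C.ell_lt _).le]
  congr 1
  apply dv_congr
  have := C.V_ell (y + i)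
  rw [show y + C.h + (i : ℤ) = y + i + C.h by ring]
  have := (dvd_neg (a := C.N)).2 this
  rwa [show -(C.V (y + i) + C.ell (y + i) - (C.V (y + i + C.h) - C.H))
    = v - C.V (y + i) - C.ell (y + i) - (v - (C.V (y + i + C.h) - C.H)) by ring] at this

theorem g_jump (y u : ℤ) : C.g y u - C.g y (u - 1)
    = ∑ i ∈ range C.h, dv C.N (u - C.U (y + i))
      - ∑ i ∈ range C.h, dv C.N (u - (C.U (y + C.w + i) + C.W)) := by
  have A : ∑ i ∈ range C.w, ph C.N (C.U (y + i)) (C.ell (y + i)) u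
      - ∑ i ∈ range C.w, ph C.N (C.U (y + i)) (C.ell (y + i)) (u - 1)
      = ∑ i ∈ range C.w, dv C.N (u - C.U (y + i))
      - ∑ i ∈ range C.w, dv C.N (u - C.U (y + C.h + i)) := by
    rw [← Finset.sum_sub_distrib, ← Finset.sum_sub_distrib]
    refine Finset.sum_congr rfl fun i _ => ?_
    rw [ph_jump C.N_pos (C.ell_nonneg _) (C.ell_lt _).le]
    congr 1
    apply dv_congr
    have := C.U_ell (y + i)
    rw [show y + C.h + (i : ℤ) = y + i + C.h by ring]
    have := (dvd_neg (a := C.N)).2 this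
    rwa [show -(C.U (y + i) + C.ell (y + i) - (C.U (y + i + C.h)))
      = u - C.U (y + i) - C.ell (y + i) - (u - C.U (y + i + C.h)) by ring] at this
  have B : ∑ i ∈ range C.h, ph C.N (C.U (y + C.w + i)) C.W u
      - ∑ i ∈ range C.h, ph C.N (C.U (y + C.w + i)) C.W (u - 1)
      = ∑ i ∈ range C.h, dv C.N (u - C.U (y + C.w + i))
      - ∑ i ∈ range C.h, dv C.N (u - (C.U (y + C.w + i) + C.W)) := by
    rw [← Finset.sum_sub_distrib, ← Finset.sum_sub_distrib]
    refine Finset.sum_congr rfl fun i _ => ?_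
    rw [ph_jump C.N_pos C.W_pos.le C.W_lt.le]
    rw [show u - C.U (y + C.w + i) - C.W = u - (C.U (y + C.w + i) + C.W) by ring]
  have E1 := Finset.sum_range_add (fun i : ℕ => dv C.N (u - C.U (y + i))) C.w C.h
  have E2 := Finset.sum_range_add (fun i : ℕ => dv C.N (u - C.U (y + i))) C.h C.w
  rw [add_comm C.h C.w] at E2
  have e1 : ∀ i : ℕ, y + ((C.w + i : ℕ) : ℤ) = y + C.w + i := by intro i; push_cast; ring
  have e2 : ∀ i : ℕ, y + ((C.h + i : ℕ) : ℤ) = y + C.h + i := by intro i; push_cast; ring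
  simp only [e1] at E1
  simp only [e2] at E2
  unfold g
  omega

end Cfg

end Pool.Agent.H98.Flat
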