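import Pool.Agent.H98.Flat.Cases

/-! The signed corner count of triangles equals `R - g + f`. -/

namespace Pool.Agent.H98.Flat

open Finset

/-- visibility of a corner `(Uc, Vc)` lying on row `row`, in the triangle `(u0, v0, Y)` -/
def vis (N q p Uc Vc row u0 v0 Y : ℤ) : ℤ :=
  if (Uc - u0) % N + q * ((row - Y) % p) + (v0 - Vc) % N < N then 1 else 0

theorem vis_congr {N q p Uc Vc row Uc' Vc' row' u0 v0 Y : ℤ} (h1 : N ∣ Uc - Uc')
    (h2 : N ∣ Vc - Vc') (h3 : p ∣ row - row') :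
    vis N q p Uc Vc row u0 v0 Y = vis N q p Uc' Vc' row' u0 v0 Y := by
  unfold vis
  rw [emod_congr (a := Uc - u0) (b := Uc' - u0) (by rwa [sub_sub_sub_cancel_right]),
    emod_congr (a := row - Y) (b := row' - Y) (by rwa [sub_sub_sub_cancel_right]),
    emod_congr (a := v0 - Vc) (b := v0 - Vc') (by
      rw [sub_sub_sub_cancel_left]; exact (dvd_sub_comm).1 h2)]

theorem vis_eq {N q p Uc Vc row u0 v0 Y : ℤ} (hN : 0 < N) (hpq : p * q = N) (hq : 0 < q)
    (hp : 0 < p) (hV : N ∣ Vc - (Uc + q * row)) :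
    vis N q p Uc Vc row u0 v0 Y
      = if (Uc - u0) % N ≤ (v0 - u0 - q * Y) % N - q * ((row - Y) % p) then 1 else 0 := by
  have x0 := Int.emod_nonneg (Uc - u0) hN.ne'
  have w0 := Int.emod_nonneg (v0 - Vc) hN.ne'
  have wl := Int.emod_lt_of_pos (v0 - Vc) hN
  have m0 := Int.emod_nonneg (v0 - u0 - q * Y) hN.ne'
  have ml := Int.emod_lt_of_pos (v0 - u0 - q * Y) hN
  have r0 := Int.emod_nonneg (row - Y) hp.ne'
  have ex := Int.emod_add_mul_ediv (Uc - u0) N
  have ew := Int.emod_add_mul_ediv (v0 - Vc) N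
  have em := Int.emod_add_mul_ediv (v0 - u0 - q * Y) N
  have er := Int.emod_add_mul_ediv (row - Y) p
  obtain ⟨t, ht⟩ := hV
  set X := (Uc - u0) % N
  set Wc := (v0 - Vc) % N
  set m := (v0 - u0 - q * Y) % N
  set r := (row - Y) % p
  -- X + q r + Wc ≡ m
  have key : N ∣ X + q * r + Wc - m := by
    refine ⟨(v0 - u0 - q * Y) / N - (Uc - u0) / N - (v0 - Vc) / N - (row - Y) / p - t, ?_⟩
    have er' : r = row - Y - p * ((row - Y) / p) := by omega
    rw [er', ← hpq] at *
    have hh : Vc = Uc + q * row + p * q * t := by omega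
    have ex' : X = Uc - u0 - p * q * ((Uc - u0) / (p * q)) := by omega
    have ew' : Wc = v0 - Vc - p * q * ((v0 - Vc) / (p * q)) := by omega
    have em' : m = v0 - u0 - q * Y - p * q * ((v0 - u0 - q * Y) / (p * q)) := by omega
    rw [ex', ew', em']
    linear_combination (-1 : ℤ) * hh
  have qr : 0 ≤ q * r := mul_nonneg hq.le r0
  unfold vis
  change (if X + q * r + Wc < N then (1 : ℤ) else 0) = if X ≤ m - q * r then 1 else 0
  by_cases c : X ≤ m - q * r
  · rw [if_pos c]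
    have : X + q * r + Wc - m = 0 := by
      refine Int.eq_zero_of_abs_lt_dvd key ?_
      rw [abs_lt]; constructor <;> omega
    rw [if_pos (by omega)]
  · rw [if_neg c, if_neg]
    intro h
    have : X + q * r + Wc - m = 0 := by
      refine Int.eq_zero_of_abs_lt_dvd key ?_
      rw [abs_lt]; constructor <;> omega
    omega

theorem chi_eq {N a u0 L : ℤ} (hN : 0 < N) (h0 : 0 ≤ L) (h1 : L < N) :
    (if (a - u0) % N ≤ L then (1 : ℤ) else 0) = (u0 + L - a) / N - (u0 - 1 - a) / N := by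
  have x0 := Int.emod_nonneg (a - u0) hN.ne'
  have xl := Int.emod_lt_of_pos (a - u0) hN
  have ex := Int.emod_add_mul_ediv (a - u0) N
  set X := (a - u0) % N
  set z := (a - u0) / N
  have h2 : (u0 - 1 - a) / N = -z - 1 := by
    refine ((Int.ediv_emod_unique (r := N - 1 - X) hN).2 ⟨?_, by omega, by omega⟩).1
    rw [mul_sub, mul_neg]; omega
  by_cases c : X ≤ L
  · have : (u0 + L - a) / N = -z := by
      refine ((Int.ediv_emod_unique (r := L - X) hN).2 ⟨?_, by omega, by omega⟩).1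
      rw [mul_neg]; omega
    rw [if_pos c, this, h2]; ring
  · have : (u0 + L - a) / N = -z - 1 := by
      refine ((Int.ediv_emod_unique (r := L - X + N) hN).2 ⟨?_, by omega, by omega⟩).1
      rw [mul_sub, mul_neg]; omega
    rw [if_neg c, this, h2]; ring

namespace Cfg

variable {C : Cfg}

/-- the signed corner count -/
def Fint (C : Cfg) (u0 v0 Y : ℤ) : ℤ := ∑ k ∈ range C.p,
  (vis C.N C.q C.p (C.U k) (C.V k) k u0 v0 Y
    - vis C.N C.q C.p (C.U k + C.W) (C.V k) (k - C.w) u0 v0 Y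
    - vis C.N C.q C.p (C.U k) (C.V k - C.H) (k - C.h) u0 v0 Y
    + vis C.N C.q C.p (C.U k + C.W) (C.V k - C.H) (k - C.w - C.h) u0 v0 Y)

theorem div_congr_arc {N a b x : ℤ} (hN : 0 < N) (h : N ∣ a - b) (x' : ℤ) :
    (x - a) / N - (x' - a) / N = (x - b) / N - (x' - b) / N := by
  obtain ⟨t, ht⟩ := h
  have ha : a = b + N * t := by omega
  subst ha
  rw [show x - (b + N * t) = x - b + N * (-t) by ring,
    show x' - (b + N * t) = x' - b + N * (-t) by ring,
    Int.add_mul_ediv_left _ _ hN.ne', Int.add_mul_ediv_left _ _ hN.ne']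
  ring

/-- difference of `D` at two points by corner counts -/
theorem D_diff (y u u' : ℤ) : C.D y u - C.D y u'
    = ((u - (C.U (y + C.w) + C.W)) / C.N - (u' - (C.U (y + C.w) + C.W)) / C.N)
      - ((u - (C.U (y + C.w + C.h) + C.W)) / C.N - (u' - (C.U (y + C.w + C.h) + C.W)) / C.N)
      - ((u - C.U y) / C.N - (u' - C.U y) / C.N)
      + ((u - C.U (y + C.h)) / C.N - (u' - C.U (y + C.h)) / C.N) := by
  have hN := C.N_pos
  unfold D
  rw [ph_eq_div hN (C.ell_nonneg _) (C.ell_lt _).le, ph_eq_div hN (C.ell_nonneg _) (C.ell_lt _).le,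
    ph_eq_div hN (C.ell_nonneg _) (C.ell_lt _).le, ph_eq_div hN (C.ell_nonneg _) (C.ell_lt _).le]
  have h1 : C.N ∣ (C.U (y + C.w) + C.W + C.ell (y + C.w)) - (C.U (y + C.w + C.h) + C.W) := by
    have := C.U_ell (y + C.w)
    rwa [show C.U (y + C.w) + C.W + C.ell (y + C.w) - (C.U (y + C.w + C.h) + C.W)
      = C.U (y + C.w) + C.ell (y + C.w) - C.U (y + C.w + C.h) by ring]
  have e1 := div_congr_arc hN h1 (x := u) u'
  have e2 := div_congr_arc hN (C.U_ell y) (x := u) u'
  have s1 : ∀ x, x - (C.U (y + C.w) + C.W) - C.ell (y + C.w)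
      = x - (C.U (y + C.w) + C.W + C.ell (y + C.w)) := fun x => by ring
  have s2 : ∀ x, x - C.U y - C.ell y = x - (C.U y + C.ell y) := fun x => by ring
  rw [s1, s1, s2, s2]
  omega

theorem Fint_eq (u v Y : ℤ) : C.Fint (u + 1) v Y = C.R u v - C.g Y u + C.f Y v := by
  have hN := C.N_pos
  have hq := C.q_pos
  have hp : (0 : ℤ) < C.p := by exact_mod_cast C.p_pos
  have hpq : (C.p : ℤ) * C.q = C.N := rfl
  have m0 := Int.emod_nonneg (v - (u + 1) - C.q * Y) hN.ne'
  have ml := Int.emod_lt_of_pos (v - (u + 1) - C.q * Y) hN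
  have em := Int.emod_add_mul_ediv (v - (u + 1) - C.q * Y) C.N
  obtain ⟨m, hm⟩ : ∃ m, m = (v - (u + 1) - C.q * Y) % C.N := ⟨_, rfl⟩
  rw [← hm] at m0 ml em
  -- J
  have J0 : 0 ≤ m / C.q := Int.ediv_nonneg m0 hq.le
  obtain ⟨J, hJ⟩ := Int.eq_ofNat_of_zero_le J0
  have j0 := Int.emod_nonneg m hq.ne'
  have jl := Int.emod_lt_of_pos m hq
  have ej := Int.emod_add_mul_ediv m C.q
  rw [hJ] at ej
  have hJp : J < C.p := by
    apply lt_of_q (C := C)
    rw [C.q_p]; omega
  -- the four families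
  have fam : ∀ (o : ℤ) (a : ℤ) (b : ℤ),
      (b = a + C.q * (-o)) →
      ∑ k ∈ range C.p, vis C.N C.q C.p (C.U k + a) (C.V k + b) (k - o) (u + 1) v Y
      = ∑ j ∈ range C.p, (if (C.U (Y + o + j) + a - (u + 1)) % C.N ≤ m - C.q * j
          then (1 : ℤ) else 0) := by
    intro o a b hb
    rw [← sum_shift (fun k => vis C.N C.q C.p (C.U k + a) (C.V k + b) (k - o) (u + 1) v Y)
      ?_ (Y + o)]
    · refine Finset.sum_congr rfl fun j hj => ?_
      have hj := Finset.mem_range.1 hj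
      have hmod : (j : ℤ) % C.p = j :=
        Int.emod_eq_of_lt (by positivity) (by exact_mod_cast hj)
      have hV : C.N ∣ C.V (Y + o + j) + b - (C.U (Y + o + j) + a + C.q * (Y + o + j - o)) :=
        ⟨0, by rw [hb]; unfold V; ring⟩
      rw [vis_eq hN hpq hq hp hV, ← hm, show Y + o + (j : ℤ) - o - Y = j by ring, hmod]
    · intro k
      apply vis_congr
      · rw [add_sub_add_right_eq_sub]; exact C.U_congr (by simp)
      · rw [add_sub_add_right_eq_sub]; exact C.V_congr (by simp)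
      · rw [show k + C.p - o - (k - o) = (C.p : ℤ) by ring]
  have F1 := fam 0 0 0 (by ring)
  have F2 := fam C.w C.W 0 (by unfold W; ring)
  have F3 := fam C.h 0 (-C.H) (by unfold H; ring)
  have F4 := fam (C.w + C.h) C.W (-C.H) (by unfold W H; ring)
  simp only [add_zero, sub_zero, ← sub_eq_add_neg] at F1 F2 F3 F4
  have e4 : ∀ k : ℤ, k - (C.w + C.h : ℤ) = k - C.w - C.h := fun k => by ring
  simp only [e4] at F4
  unfold Fint
  rw [Finset.sum_add_distrib, Finset.sum_sub_distrib, Finset.sum_sub_distrib, F1, F2, F3, F4,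
    ← Finset.sum_sub_distrib, ← Finset.sum_sub_distrib, ← Finset.sum_add_distrib]
  have key : ∀ j ∈ range C.p,
      ((if (C.U (Y + j) - (u + 1)) % C.N ≤ m - C.q * j then (1 : ℤ) else 0)
      - (if (C.U (Y + C.w + j) + C.W - (u + 1)) % C.N ≤ m - C.q * j then (1 : ℤ) else 0)
      - (if (C.U (Y + C.h + j) - (u + 1)) % C.N ≤ m - C.q * j then (1 : ℤ) else 0)
      + (if (C.U (Y + (C.w + C.h) + j) + C.W - (u + 1)) % C.N ≤ m - C.q * j
          then (1 : ℤ) else 0))
      = if 0 ≤ j ∧ j < 0 + (J + 1) then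
          (C.g (Y + j + 1) u - C.g (Y + j) u)
          - (C.f (Y + j + 1) (u + 1 + m + C.q * Y) - C.f (Y + j) (u + 1 + m + C.q * Y))
        else 0 := by
    intro j hj
    have hj := Finset.mem_range.1 hj
    have x1 := Int.emod_nonneg (C.U (Y + j) - (u + 1)) hN.ne'
    have x2 := Int.emod_nonneg (C.U (Y + C.w + j) + C.W - (u + 1)) hN.ne'
    have x3 := Int.emod_nonneg (C.U (Y + C.h + j) - (u + 1)) hN.ne'
    have x4 := Int.emod_nonneg (C.U (Y + (C.w + C.h) + j) + C.W - (u + 1)) hN.ne'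
    have qj : (0 : ℤ) ≤ C.q * j := by positivity
    by_cases c : j < J + 1
    · rw [if_pos (show 0 ≤ j ∧ j < 0 + (J + 1) by omega)]
      have hjJ : (C.q : ℤ) * j ≤ C.q * J := by
        have : (j : ℤ) ≤ J := by omega
        nlinarith
      have L0 : 0 ≤ m - C.q * j := by omega
      have L1 : m - C.q * j < C.N := by omega
      rw [chi_eq hN L0 L1, chi_eq hN L0 L1, chi_eq hN L0 L1, chi_eq hN L0 L1]
      have d1 := D_diff (C := C) (Y + j) (u + 1 + (m - C.q * j)) (u + 1 - 1)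
      have g1 := C.g_step (Y + j) u
      have f1 := C.f_step (Y + j) (u + 1 + m + C.q * Y)
      rw [show u + 1 + m + C.q * Y - C.q * (Y + j) = u + 1 + (m - C.q * j) by ring] at f1
      rw [show u + 1 - 1 = u by ring] at *
      rw [show Y + (j : ℤ) + C.w + C.h = Y + (C.w + C.h) + j by ring,
        show Y + (j : ℤ) + C.w = Y + C.w + j by ring,
        show Y + (j : ℤ) + C.h = Y + C.h + j by ring] at d1
      omega
    · have hjJ : (C.q : ℤ) * (J + 1) ≤ C.q * j := by
        have : (J : ℤ) + 1 ≤ j := by omega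
        nlinarith
      rw [mul_add, mul_one] at hjJ
      rw [if_neg (show ¬ (0 ≤ j ∧ j < 0 + (J + 1)) by omega)]
      rw [if_neg (by omega), if_neg (by omega), if_neg (by omega), if_neg (by omega)]
      rfl
  rw [Finset.sum_congr rfl key, sum_window C.p 0 (J + 1) (by omega) (fun j : ℕ =>
    (C.g (Y + j + 1) u - C.g (Y + j) u)
          - (C.f (Y + j + 1) (u + 1 + m + C.q * Y) - C.f (Y + j) (u + 1 + m + C.q * Y)))]
  have tel1 := Finset.sum_range_sub (fun j : ℕ => C.g (Y + j) u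
    - C.f (Y + j) (u + 1 + m + C.q * Y)) (J + 1)
  have tel2 : ∑ j ∈ range (J + 1), ((C.g (Y + ((0 + j : ℕ) : ℤ) + 1) u
        - C.g (Y + ((0 + j : ℕ) : ℤ)) u)
      - (C.f (Y + ((0 + j : ℕ) : ℤ) + 1) (u + 1 + m + C.q * Y)
        - C.f (Y + ((0 + j : ℕ) : ℤ)) (u + 1 + m + C.q * Y)))
      = ∑ i ∈ range (J + 1), ((C.g (Y + ((i + 1 : ℕ) : ℤ)) u
          - C.f (Y + ((i + 1 : ℕ) : ℤ)) (u + 1 + m + C.q * Y))
          - (C.g (Y + i) u - C.f (Y + i) (u + 1 + m + C.q * Y))) := by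
    refine Finset.sum_congr rfl fun i _ => ?_
    rw [show Y + ((0 + i : ℕ) : ℤ) + 1 = Y + ((i + 1 : ℕ) : ℤ) by push_cast; ring,
      show Y + ((0 + i : ℕ) : ℤ) = Y + i by push_cast; ring]
    ring
  rw [tel2, tel1]
  have hg := C.gid (Y + ((J + 1 : ℕ) : ℤ)) u (m + C.q * Y + 1)
    (by push_cast
        rw [show C.q * (Y + ((J : ℤ) + 1) - 1) = C.q * Y + C.q * J by ring]
        omega)
    (by push_cast
        rw [show C.q * (Y + ((J : ℤ) + 1)) = C.q * Y + C.q * J + C.q by ring]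
        omega)
  rw [show u + (m + C.q * Y + 1) = u + 1 + m + C.q * Y by ring] at hg
  have cong : C.N ∣ u + 1 + m + C.q * Y - v := by
    refine ⟨-((v - (u + 1) - C.q * Y) / C.N), ?_⟩
    rw [mul_neg]; omega
  rw [C.R_congr (by simp : C.N ∣ u - u) cong] at hg
  have hf2 : C.f Y (u + 1 + m + C.q * Y) = C.f Y v := C.f_congr (by simp) cong
  rw [Nat.cast_zero, add_zero, hf2]
  omega

/-- Flatness via the corner count. -/
theorem flat_of_Fint (h : ∀ u0 v0 Y, |C.Fint u0 v0 Y| ≤ 1) : C.IsFlat := by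
  intro u v y
  rw [← Fint_eq]
  exact h _ _ _

theorem disjoint_not_flat' (G : Gen C) (hd : C.Disj) (hfl : ∀ u0 v0 Y, |C.Fint u0 v0 Y| ≤ 1)
    (hw2 : 2 ≤ C.w) (hh2 : 2 ≤ C.h) (cw : Nat.Coprime C.w C.p) (ch : Nat.Coprime C.h C.p) :
    False :=
  disjoint_not_flat G hd (flat_of_Fint hfl) hw2 hh2 cw ch

end Cfg

end Pool.Agent.H98.Flat
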