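import Pool.Agent.H98.Flat.Align

/-! Counting functions `T`, `M`, `nV`. -/

namespace Pool.Agent.H98.Flat

open Finset

namespace Cfg

variable {C : Cfg}

def T (C : Cfg) (u : ℤ) : ℤ := ∑ k ∈ range C.p, ph C.N (C.U k) (C.ell k) u
def M (C : Cfg) (v : ℤ) : ℤ := ∑ k ∈ range C.p, ph C.N (C.V k) (C.ell k) v
def nV (C : Cfg) (v : ℤ) : ℤ := ∑ k ∈ range C.p, C.ver k v

theorem sum_shift (F : ℤ → ℤ) (hF : ∀ k, F (k + C.p) = F k) (y : ℤ) :
    ∑ i ∈ range C.p, F (y + i) = ∑ i ∈ range C.p, F i := sum_period C.p F hF y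

theorem sum_shift' (F : ℤ → ℤ) (hF : ∀ k, F (k + C.p) = F k) (y : ℤ) :
    ∑ i ∈ range C.p, F (i + y) = ∑ i ∈ range C.p, F i := by
  rw [← sum_shift F hF y]
  exact Finset.sum_congr rfl fun i _ => by rw [add_comm]

theorem sum_rev (F : ℤ → ℤ) (hF : ∀ k, F (k + C.p) = F k) (e : ℤ) :
    ∑ i ∈ range C.p, F (e - i) = ∑ i ∈ range C.p, F i := by
  have h := Finset.sum_range_reflect (fun i : ℕ => F (e - i)) C.p
  rw [← h]
  have hp := C.p_pos
  have : ∀ i ∈ range C.p, F (e - ((C.p - 1 - i : ℕ) : ℤ)) = F (e + 1 - C.p + i) := by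
    intro i hi
    have := Finset.mem_range.1 hi
    congr 1; omega
  rw [Finset.sum_congr rfl this]
  exact sum_shift F hF _

theorem dvU_per (x : ℤ) (k : ℤ) : dv C.N (x - C.U (k + C.p)) = dv C.N (x - C.U k) := by
  apply dv_congr
  have := (dvd_neg (a := C.N)).2 (C.U_congr (k := k + C.p) (j := k) (by simp))
  rwa [show -(C.U (k + C.p) - C.U k) = x - C.U (k + C.p) - (x - C.U k) by ring] at this

theorem dvV_per (x : ℤ) (k : ℤ) : dv C.N (x - C.V (k + C.p)) = dv C.N (x - C.V k) := by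
  apply dv_congr
  have := (dvd_neg (a := C.N)).2 (C.V_congr (k := k + C.p) (j := k) (by simp))
  rwa [show -(C.V (k + C.p) - C.V k) = x - C.V (k + C.p) - (x - C.V k) by ring] at this

theorem T_const (u u' : ℤ) : C.T u = C.T u' := by
  apply const_of_jump
  intro u
  have h : C.T u - C.T (u - 1) = ∑ k ∈ range C.p, dv C.N (u - C.U k)
      - ∑ k ∈ range C.p, dv C.N (u - C.U (k + C.h)) := by
    unfold T
    rw [← Finset.sum_sub_distrib, ← Finset.sum_sub_distrib]
    refine Finset.sum_congr rfl fun i _ => ?_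
    rw [ph_jump C.N_pos (C.ell_nonneg _) (C.ell_lt _).le]
    congr 1
    apply dv_congr
    have := (dvd_neg (a := C.N)).2 (C.U_ell i)
    rwa [show -(C.U i + C.ell i - (C.U (i + C.h)))
      = u - C.U i - C.ell i - (u - C.U (i + C.h)) by ring] at this
  rw [sum_shift' (fun k => dv C.N (u - C.U k)) (fun k => dvU_per u k)] at h
  omega

theorem M_jump (v : ℤ) : C.M v - C.M (v - 1) = ∑ k ∈ range C.p, dv C.N (v - C.V k)
      - ∑ k ∈ range C.p, dv C.N (v + C.H - C.V k) := by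
  have h : C.M v - C.M (v - 1) = ∑ k ∈ range C.p, dv C.N (v - C.V k)
      - ∑ k ∈ range C.p, dv C.N (v + C.H - C.V (k + C.h)) := by
    unfold M
    rw [← Finset.sum_sub_distrib, ← Finset.sum_sub_distrib]
    refine Finset.sum_congr rfl fun i _ => ?_
    rw [ph_jump C.N_pos (C.ell_nonneg _) (C.ell_lt _).le]
    congr 1
    apply dv_congr
    have := (dvd_neg (a := C.N)).2 (C.V_ell i)
    rwa [show -(C.V i + C.ell i - (C.V (i + C.h) - C.H))
      = v - C.V i - C.ell i - (v + C.H - C.V (i + C.h)) by ring] at this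
  rw [h, sum_shift' (fun k => dv C.N (v + C.H - C.V k)) (fun k => dvV_per _ k)]

theorem nV_jump (v : ℤ) : C.nV v - C.nV (v - 1) = ∑ k ∈ range C.p, dv C.N (v + C.H - C.V k)
      - ∑ k ∈ range C.p, dv C.N (v - C.V k) := by
  unfold nV ver
  rw [← Finset.sum_sub_distrib, ← Finset.sum_sub_distrib]
  refine Finset.sum_congr rfl fun i _ => ?_
  rw [ph_jump C.N_pos C.H_pos.le C.H_lt.le]
  rw [show v - (C.V i - C.H) = v + C.H - C.V i by ring,
    show v + C.H - C.V i - C.H = v - C.V i by ring]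

theorem sum_T : ∑ x ∈ range (C.p * C.q), C.T x = ∑ k ∈ range C.p, C.ell k := by
  unfold T
  rw [Finset.sum_comm]
  exact Finset.sum_congr rfl fun i _ => C.sum_ph' _ _ (C.ell_nonneg _) (C.ell_lt _).le

theorem sum_M : ∑ x ∈ range (C.p * C.q), C.M x = ∑ k ∈ range C.p, C.ell k := by
  unfold M
  rw [Finset.sum_comm]
  exact Finset.sum_congr rfl fun i _ => C.sum_ph' _ _ (C.ell_nonneg _) (C.ell_lt _).le

theorem sum_nV : ∑ x ∈ range (C.p * C.q), C.nV x = C.p * C.H := by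
  unfold nV ver
  rw [Finset.sum_comm, Finset.sum_congr rfl fun i _ => C.sum_ph' _ _ C.H_pos.le C.H_lt.le]
  simp

/-- `|M(v)| + n_V(v) = α + h` -/
theorem M_add_nV (v : ℤ) : C.M v + C.nV v = C.T 0 + C.h := by
  have hc : ∀ v, C.M v + C.nV v = C.M 0 + C.nV 0 := by
    intro v
    refine const_of_jump (fun v => C.M v + C.nV v) ?_ v 0
    intro v
    have h1 := M_jump (C := C) v
    have h2 := nV_jump (C := C) v
    omega
  rw [hc]
  have s1 : ∑ x ∈ range (C.p * C.q), (C.M x + C.nV x) = ∑ x ∈ range (C.p * C.q), (C.T x)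
      + C.p * C.H := by
    rw [Finset.sum_add_distrib, sum_M, sum_nV, sum_T]
  have s2 : ∑ x ∈ range (C.p * C.q), (C.M x + C.nV x) = C.N * (C.M 0 + C.nV 0) := by
    rw [Finset.sum_congr rfl fun (x : ℕ) _ => hc (x : ℤ)]
    rw [Finset.sum_const, Finset.card_range, nsmul_eq_mul, C.N_eq]
  have s3 : ∑ x ∈ range (C.p * C.q), (C.T x) = C.N * C.T 0 := by
    rw [Finset.sum_congr rfl fun (x : ℕ) _ => T_const (C := C) (x : ℤ) 0]
    rw [Finset.sum_const, Finset.card_range, nsmul_eq_mul, C.N_eq]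
  rw [s2, s3] at s1
  have e : (C.p : ℤ) * C.H = C.N * C.h := by unfold H N; ring
  rw [e, ← mul_add] at s1
  exact mul_left_cancel₀ C.N_pos.ne' s1

theorem sum_M' : ∑ x ∈ range (C.p * C.q), C.M x = C.N * C.T 0 := by
  rw [sum_M, ← sum_T, Finset.sum_congr rfl fun (x : ℕ) _ => T_const (C := C) (x : ℤ) 0]
  rw [Finset.sum_const, Finset.card_range, nsmul_eq_mul, C.N_eq]

theorem sum_dv_le_one {n : ℕ} {z : ℕ → ℤ} {N : ℤ}
    (h : ∀ i j, i < n → j < n → N ∣ z i → N ∣ z j → i = j) :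
    ∑ i ∈ range n, dv N (z i) ≤ 1 := by
  by_cases c : ∃ i, i < n ∧ N ∣ z i
  · obtain ⟨i, hi, hd⟩ := c
    rw [Finset.sum_eq_single i]
    · rw [dv_of hd]
    · intro j hj hne
      apply dv_not
      intro hc
      exact hne (h j i (Finset.mem_range.1 hj) hi hc hd)
    · intro hc; exact absurd (Finset.mem_range.2 hi) hc
  · push Not at c
    have : ∑ i ∈ range n, dv N (z i) = 0 := Finset.sum_eq_zero fun i hi =>
      dv_not (c i (Finset.mem_range.1 hi))
    omega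

theorem sumV_le_one (G : Gen C) (v : ℤ) : ∑ k ∈ range C.p, dv C.N (v - C.V k) ≤ 1 := by
  apply sum_dv_le_one
  intro i j hi hj h1 h2
  have := dvd_sub h2 h1
  rw [show v - C.V j - (v - C.V i) = C.V i - C.V j by ring] at this
  have := G.VV _ _ this
  have h3 : |(i : ℤ) - j| < C.p := by rw [abs_lt]; constructor <;> omega
  have := Int.eq_zero_of_abs_lt_dvd this h3
  omega

/-- the window sum of T-arcs in the level `y` -/
def S1 (C : Cfg) (y u : ℤ) : ℤ := ∑ i ∈ range C.w, ph C.N (C.U (y + i)) (C.ell (y + i)) u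
def S2 (C : Cfg) (y u : ℤ) : ℤ := ∑ i ∈ range C.h, C.hor (y + C.w + i) u

theorem g_eq (y u : ℤ) : C.g y u = C.S1 y u + C.S2 y u := rfl
theorem S1_nonneg (y u : ℤ) : 0 ≤ C.S1 y u := Finset.sum_nonneg fun _ _ => ph_nonneg _ _ _ _
theorem S2_nonneg (y u : ℤ) : 0 ≤ C.S2 y u := Finset.sum_nonneg fun _ _ => ph_nonneg _ _ _ _

theorem S1_ge {y u : ℤ} {i : ℕ} (hi : i < C.w) (h : ph C.N (C.U (y + i)) (C.ell (y + i)) u = 1) :
    1 ≤ C.S1 y u := by
  rw [← h]
  exact Finset.single_le_sum (f := fun i : ℕ => ph C.N (C.U (y + i)) (C.ell (y + i)) u)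
    (fun _ _ => ph_nonneg _ _ _ _) (Finset.mem_range.2 hi)

theorem S1_ge_two {y u : ℤ} {i j : ℕ} (hi : i < C.w) (hj : j < C.w) (hij : i ≠ j)
    (h : ph C.N (C.U (y + i)) (C.ell (y + i)) u = 1)
    (h' : ph C.N (C.U (y + j)) (C.ell (y + j)) u = 1) :
    2 ≤ C.S1 y u := by
  have : ∑ k ∈ ({i, j} : Finset ℕ), ph C.N (C.U (y + k)) (C.ell (y + k)) u ≤ C.S1 y u := by
    unfold S1
    refine Finset.sum_le_sum_of_subset_of_nonneg ?_ (fun _ _ _ => ph_nonneg _ _ _ _)
    intro x hx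
    simp only [Finset.mem_insert, Finset.mem_singleton] at hx
    rcases hx with rfl | rfl <;> simpa
  rw [Finset.sum_pair hij, h, h'] at this
  omega

theorem S2_ge {y u : ℤ} {i : ℕ} (hi : i < C.h) (h : C.hor (y + C.w + i) u = 1) :
    1 ≤ C.S2 y u := by
  rw [← h]
  exact Finset.single_le_sum (f := fun i : ℕ => C.hor (y + C.w + i) u)
    (fun _ _ => ph_nonneg _ _ _ _) (Finset.mem_range.2 hi)

theorem exists_S1 {y u : ℤ} (h : 1 ≤ C.S1 y u) :
    ∃ i : ℕ, i < C.w ∧ ph C.N (C.U (y + i)) (C.ell (y + i)) u = 1 := by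
  by_contra c
  push Not at c
  have : C.S1 y u = 0 := Finset.sum_eq_zero fun i hi => by
    have := c i (Finset.mem_range.1 hi)
    have := ph_nonneg C.N (C.U (y + i)) (C.ell (y + i)) u
    have := ph_le_one C.N (C.U (y + i)) (C.ell (y + i)) u
    omega
  omega

theorem exists_S2 {y u : ℤ} (h : 1 ≤ C.S2 y u) :
    ∃ i : ℕ, i < C.h ∧ C.hor (y + C.w + i) u = 1 := by
  by_contra c
  push Not at c
  have : C.S2 y u = 0 := Finset.sum_eq_zero fun i hi => by
    have := c i (Finset.mem_range.1 hi)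
    rcases C.hor01 (y + C.w + i) u with h | h
    · exact h
    · exact absurd h this
  omega

theorem arc_self (G : Gen C) (k : ℤ) : ph C.N (C.U k) (C.ell k) (C.U k) = 1 := by
  rw [ph_at (t := 0) (by simp) le_rfl C.N_pos, if_pos (ell_pos G k)]

theorem arcV_self (G : Gen C) (k : ℤ) : ph C.N (C.V k) (C.ell k) (C.V k) = 1 := by
  rw [ph_at (t := 0) (by simp) le_rfl C.N_pos, if_pos (ell_pos G k)]

/-- level `y` is full on the columns of rectangle `e` -/
def Full (C : Cfg) (e y : ℤ) : Prop := ∀ u, C.hor e u = 1 → 1 ≤ C.g y u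

theorem full_level (G : Gen C) (ht : C.TV (fun _ => 0)) {e y : ℤ} {r : ℕ} (hr : r < C.p)
    (he : (C.p : ℤ) ∣ e - (y + r)) (hF : C.Full e y) :
    1 ≤ C.S1 y (C.U e) ∨ (C.w ≤ r ∧ r < C.w + C.h) := by
  by_contra hc
  push Not at hc
  obtain ⟨h1, h2⟩ := hc
  have hN := C.N_pos
  have hW := C.W_pos
  have hWl := C.W_lt
  have h3 := hF _ (hor_U e)
  rw [g_eq] at h3
  obtain ⟨i, hi, hi1⟩ := exists_S2 (C := C) (y := y) (u := C.U e) (by omega)
  have hwh := C.hwh
  set j := y + C.w + (i : ℤ) with hj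
  have rw' : C.w ≤ r := by
    by_contra c
    apply absurd _ (not_le.2 h1)
    apply S1_ge (C := C) (i := r) (by omega)
    rw [← C.arcU_congr he (by simp : C.N ∣ C.U e - C.U e)]
    exact arc_self G e
  have hne : ¬ (C.p : ℤ) ∣ e - j := by
    intro hd
    have h4 := dvd_sub hd he
    rw [show e - j - (e - (y + r)) = (r : ℤ) - ((C.w + i : ℕ) : ℤ) by rw [hj]; push_cast; ring] at h4
    have h5 : |(r : ℤ) - ((C.w + i : ℕ) : ℤ)| < C.p := by rw [abs_lt]; constructor <;> omega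
    have := Int.eq_zero_of_abs_lt_dvd h4 h5
    have := h2 rw'
    omega
  have hd := ph_eq_one_iff.1 hi1
  have d0 := Int.emod_nonneg (C.U e - C.U j) hN.ne'
  have ed := Int.emod_add_mul_ediv (C.U e - C.U j) C.N
  set d := (C.U e - C.U j) % C.N with hdd
  have dne : d ≠ 0 := fun h => hne (G.UU _ _ (Int.dvd_of_emod_eq_zero h))
  have h6 : C.hor e (C.U j + C.W) = 1 := by
    unfold hor
    rw [ph_at (t := C.W - d) _ (by omega) (by omega), if_pos (by omega)]
    exact ⟨-((C.U e - C.U j) / C.N), by rw [mul_neg]; omega⟩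
  have h7 := hF _ h6
  have h8 := g_down_of G (y := y) (u := C.U j + C.W) hi (by simp [hj])
  have h9 := (gb ht y (C.U j + C.W - 1)).2
  omega

/-- from `f y v = 1` with `v` in the rows of `e`: level `y` is full on `e` -/
theorem full_of_f (hfl : C.IsFlat) {e y v : ℤ} (hv : C.ver e v = 1) (hf : 1 ≤ C.f y v) :
    C.Full e y := by
  intro u hu
  have h1 := (abs_le.1 (hfl u v y)).2
  have h2 := R_pos_of_In (C := C) (k := e) (u := u) (v := v) ⟨hu, hv⟩
  omega

end Cfg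

end Pool.Agent.H98.Flat
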