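import Pool.Agent.H98.Flat.Basic

/-! Disjoint + flat (and `w ≤ h`) implies two-valued. -/

namespace Pool.Agent.H98.Flat

open Finset

namespace Cfg

variable {C : Cfg}

theorem q_pos (C : Cfg) : (0 : ℤ) < C.q := by exact_mod_cast C.hq

theorem lt_of_q {a b : ℕ} (h : (C.q : ℤ) * a < C.q * b) : a < b := by
  have := C.q_pos
  by_contra c
  have : (b : ℤ) ≤ a := by exact_mod_cast (not_lt.1 c)
  nlinarith

theorem q_step {a b : ℕ} (h : a < b) : (C.q : ℤ) * a + C.q ≤ C.q * b := by
  have := C.q_pos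
  have : (a : ℤ) + 1 ≤ b := by exact_mod_cast h
  nlinarith

theorem q_p (C : Cfg) : (C.q : ℤ) * C.p = C.N := by unfold N; ring

theorem eq_of_dvd {i j : ℕ} {y : ℤ} (hi : i < C.p) (hj : j < C.p)
    (h : (C.p : ℤ) ∣ (y + i) - (y + j)) : i = j := by
  rw [show y + (i : ℤ) - (y + j) = i - j by ring] at h
  have h1 : |(i : ℤ) - j| < C.p := by rw [abs_lt]; constructor <;> omega
  have := Int.eq_zero_of_abs_lt_dvd h h1
  omega

theorem cov_idx {u v : ℤ} (y : ℤ) (h : 1 ≤ C.R u v) : ∃ i : ℕ, i < C.p ∧ C.In (y + i) u v := by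
  obtain ⟨k, hk⟩ := exists_In h
  obtain ⟨i, hi, hd⟩ := C.exists_mod (k - y)
  exact ⟨i, hi, In_congr (by rwa [show k - (y + i) = k - y - i by ring]) (by simp) (by simp) hk⟩

theorem level_right {y u v : ℤ} {i : ℕ} (hi : i < C.p) (hv : v = u + C.q * y)
    (hI : C.ver (y + i) v = 1) (h : C.N ∣ u + 1 - (C.U (y + i) + C.W)) :
    C.w ≤ i ∧ i < C.w + C.h := by
  have hN := C.N_pos
  have hW := C.W_pos
  have hH := C.H_pos
  have hWH := C.WH_le
  have hI' := ph_eq_one_iff.1 hI
  have e : (v - (C.V (y + i) - C.H)) % C.N = (C.W + C.H - 1 - C.q * i) % C.N := by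
    apply emod_congr
    rwa [show v - (C.V (y + i) - C.H) - (C.W + C.H - 1 - C.q * i) = u + 1 - (C.U (y + i) + C.W) by
      rw [hv]; unfold V; ring]
  rw [e] at hI'
  have h1 := q_step (C := C) hi
  rw [C.q_p] at h1
  have h2 := C.q_pos
  by_cases c : 0 ≤ C.W + C.H - 1 - C.q * i
  · rw [Int.emod_eq_of_lt c (by have : (0 : ℤ) ≤ C.q * i := by positivity
                                omega)] at hI'
    constructor
    · by_contra d
      have := q_step (C := C) (not_le.1 d)
      unfold W at *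
      omega
    · apply lt_of_q (C := C)
      unfold W H at *
      push_cast
      rw [mul_add]; omega
  · exfalso
    have : (C.W + C.H - 1 - C.q * i) % C.N = C.W + C.H - 1 - C.q * i + C.N := by
      refine ((Int.ediv_emod_unique (q := -1) hN).2 ⟨?_, by omega, by omega⟩).2
      rw [mul_neg]; omega
    omega

theorem R_eq_one (hd : C.Disj) {k u v : ℤ} (h : C.In k u v) : C.R u v = 1 :=
  le_antisymm (hd u v) (R_pos_of_In h)

theorem top_exit (G : Gen C) (hd : C.Disj) {y l0 v : ℤ} {i0 : ℕ} (hi0 : i0 < C.p)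
    (hl : ∀ v, l0 ≤ C.f y v) (hg : ∀ u, l0 + 1 ≤ C.g y u)
    (hI : C.In (y + i0) (v - C.q * y) v) (hv : C.f y v = l0) (hv1 : C.f y (v + 1) ≠ l0) :
    i0 < C.w := by
  have hN := C.N_pos
  have hW := C.W_pos
  have hH := C.H_pos
  have hWH := C.WH_le
  have hwh := C.hwh
  have hh := C.hh
  obtain ⟨i, hi, hdv⟩ := f_up (C := C) (y := y) (v := v + 1) (by
    rw [add_sub_cancel_right]; have := hl (v + 1); omega)
  have hq := q_step (C := C) hi
  have hqi : (0 : ℤ) ≤ C.q * i := by positivity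
  have hqp := C.q_pos
  have I2 : C.In (y + i) (v - C.q * y + 1) v := by
    constructor
    · unfold hor
      rw [ph_at (t := C.q * i) _ hqi (by unfold W at *; omega), if_pos (by unfold W; omega)]
      rwa [show v - C.q * y + 1 - (C.U (y + i) + C.q * i) = v + 1 - C.V (y + i) by unfold V; ring]
    · unfold ver
      rw [ph_at (t := C.H - 1) _ (by omega) (by omega), if_pos (by omega)]
      rwa [show v - (C.V (y + i) - C.H + (C.H - 1)) = v + 1 - C.V (y + i) by ring]
  rcases ph_succ hN hW.le C.W_lt.le hI.1 with h | h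
  · have := disj_eq hd ⟨h, hI.2⟩ I2
    have := eq_of_dvd hi0 (by omega) this
    omega
  · exfalso
    have hl := level_right (C := C) (u := v - C.q * y) (v := v) hi0 (by ring) hI.2 h
    obtain ⟨j, rfl⟩ := Nat.exists_eq_add_of_le hl.1
    have := g_down_of G (y := y) (u := v - C.q * y + 1) (i := j) (by omega)
      (by rwa [show y + C.w + (j : ℤ) = y + ((C.w + j : ℕ) : ℤ) by push_cast; ring])
    rw [add_sub_cancel_right, gid_top] at this
    have := hd (v - C.q * y) v
    have := hg (v - C.q * y + 1)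
    omega

theorem bot_exit (hd : C.Disj) {y l0 v : ℤ} {i0 : ℕ} (hi0 : i0 < C.p)
    (hl : ∀ v, l0 ≤ C.f y v)
    (hI : C.In (y + i0) (v - C.q * y) v) (hv : C.f y v = l0) (hv1 : C.f y (v - 1) ≠ l0) :
    C.h ≤ i0 := by
  have hN := C.N_pos
  have hW := C.W_pos
  have hH := C.H_pos
  have hWH := C.WH_le
  have hwh := C.hwh
  obtain ⟨i, hi, hdv⟩ := f_down (C := C) (y := y) (v := v) (by
    have := hl (v - 1); omega)
  have hq := q_step (C := C) hi
  have hqi : (0 : ℤ) ≤ C.q * i := by positivity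
  have hqp := C.q_pos
  have I2 : C.In (y + ((C.h + i : ℕ) : ℤ)) (v - C.q * y) v := by
    rw [show y + ((C.h + i : ℕ) : ℤ) = y + C.h + i by push_cast; ring]
    constructor
    · unfold hor
      rw [ph_at (t := C.q * i) _ hqi (by unfold W at *; omega), if_pos (by unfold W; omega)]
      rwa [show v - C.q * y - (C.U (y + C.h + i) + C.q * i) = v - (C.V (y + C.h + i) - C.H) by
        unfold V H; ring]
    · unfold ver
      rw [ph_at (t := 0) _ (by omega) (by omega), if_pos (by omega)]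
      rwa [add_zero]
  have := disj_eq hd hI I2
  have := eq_of_dvd hi0 (by omega) this
  omega

theorem chain_up (G : Gen C) (hd : C.Disj) {y v0 : ℤ} {i0 : ℕ} {l0 : ℤ}
    (cov : ∀ v, C.f y v = l0 → 1 ≤ C.R (v - C.q * y) v)
    (hI : C.In (y + i0) (v0 - C.q * y) v0) (n : ℕ) (hn : ∀ m : ℕ, m ≤ n → C.f y (v0 + m) = l0) :
    C.In (y + i0) (v0 + n - C.q * y) (v0 + n) := by
  induction n with
  | zero => simpa using hI
  | succ n ih =>
    have h1 := ih (fun m hm => hn m (by omega))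
    obtain ⟨k, hk⟩ := exists_In (cov _ (hn (n + 1) le_rfl))
    rw [show v0 + ((n + 1 : ℕ) : ℤ) - C.q * y = v0 + n - C.q * y + 1 by push_cast; ring,
      show v0 + ((n + 1 : ℕ) : ℤ) = v0 + n + 1 by push_cast; ring] at hk ⊢
    have := near G hd h1 hk
    exact In_congr ((dvd_sub_comm).1 this) (by simp) (by simp) hk

theorem chain_down (G : Gen C) (hd : C.Disj) {y v0 : ℤ} {i0 : ℕ} {l0 : ℤ}
    (cov : ∀ v, C.f y v = l0 → 1 ≤ C.R (v - C.q * y) v)
    (hI : C.In (y + i0) (v0 - C.q * y) v0) (n : ℕ) (hn : ∀ m : ℕ, m ≤ n → C.f y (v0 - m) = l0) :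
    C.In (y + i0) (v0 - n - C.q * y) (v0 - n) := by
  induction n with
  | zero => simpa using hI
  | succ n ih =>
    have h1 := ih (fun m hm => hn m (by omega))
    obtain ⟨k, hk⟩ := exists_In (cov _ (hn (n + 1) le_rfl))
    have h2 : C.In (y + i0) (v0 - ((n + 1 : ℕ) : ℤ) - C.q * y + 1) (v0 - ((n + 1 : ℕ) : ℤ) + 1) := by
      rw [show v0 - ((n + 1 : ℕ) : ℤ) - C.q * y + 1 = v0 - n - C.q * y by push_cast; ring,
      show v0 - ((n + 1 : ℕ) : ℤ) + 1 = v0 - n by push_cast; ring]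
      exact h1
    have := near G hd hk h2
    exact In_congr this (by simp) (by simp) hk

theorem exists_hit (hN : 0 < C.N) (a b : ℤ) : ∃ n : ℕ, C.N ∣ a + n - b := by
  refine ⟨((b - a) % C.N).toNat, ?_⟩
  rw [Int.toNat_of_nonneg (Int.emod_nonneg _ hN.ne')]
  have := Int.emod_add_mul_ediv (b - a) C.N
  exact ⟨-((b - a) / C.N), by rw [mul_neg]; omega⟩

theorem exists_hit' (hN : 0 < C.N) (a b : ℤ) : ∃ n : ℕ, C.N ∣ a - n - b := by
  refine ⟨((a - b) % C.N).toNat, ?_⟩
  rw [Int.toNat_of_nonneg (Int.emod_nonneg _ hN.ne')]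
  have := Int.emod_add_mul_ediv (a - b) C.N
  exact ⟨(a - b) / C.N, by omega⟩

theorem ver_V {k v : ℤ} (h : C.N ∣ v - C.V k) : C.ver k v = 0 := by
  unfold ver
  rw [ph_at (t := C.H) _ C.H_pos.le C.H_lt, if_neg (lt_irrefl _)]
  rwa [show v - (C.V k - C.H + C.H) = v - C.V k by ring]

theorem I1 (G : Gen C) (hd : C.Disj) (hwh : C.w ≤ C.h) {y l0 v0 : ℤ}
    (hl : ∀ v, l0 ≤ C.f y v) (hv0 : C.f y v0 = l0) : ∃ u, C.g y u = l0 := by
  by_contra hc
  push Not at hc
  have hg : ∀ u, l0 + 1 ≤ C.g y u := by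
    intro u
    have h1 := gid_top (C := C) y (u + C.q * y)
    rw [add_sub_cancel_right] at h1
    have := C.R_nonneg u (u + C.q * y)
    have := hl (u + C.q * y)
    have := hc u
    omega
  have cov : ∀ v, C.f y v = l0 → 1 ≤ C.R (v - C.q * y) v := by
    intro v hv
    have h1 := gid_top (C := C) y v
    have := hg (v - C.q * y)
    omega
  obtain ⟨i0, hi0, hI⟩ := cov_idx y (cov v0 hv0)
  have ex1 : ∃ n : ℕ, C.f y (v0 + n) ≠ l0 := by
    by_contra hcc
    push Not at hcc
    obtain ⟨n, hn⟩ := exists_hit (C := C) C.N_pos v0 (C.V (y + i0))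
    have := (chain_up G hd cov hI n (fun m _ => hcc m)).2
    rw [ver_V hn] at this
    omega
  have ex2 : ∃ n : ℕ, C.f y (v0 - n) ≠ l0 := by
    by_contra hcc
    push Not at hcc
    obtain ⟨n, hn⟩ := exists_hit' (C := C) C.N_pos v0 (C.V (y + i0))
    have := (chain_down G hd cov hI n (fun m _ => hcc m)).2
    rw [ver_V hn] at this
    omega
  classical
  have a1 : i0 < C.w := by
    have s := Nat.find_spec ex1
    have m : ∀ k, k < Nat.find ex1 → C.f y (v0 + k) = l0 := fun k hk => by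
      have := Nat.find_min ex1 hk; simpa using this
    set n := Nat.find ex1
    have hn : n ≠ 0 := by rintro h0; rw [h0] at s; simp [hv0] at s
    obtain ⟨n', hn'⟩ := Nat.exists_eq_succ_of_ne_zero hn
    have hI' := chain_up G hd cov hI n' (fun k hk => m k (by omega))
    refine top_exit G hd hi0 hl hg hI' (m n' (by omega)) ?_
    rw [hn'] at s
    rwa [show v0 + (n' : ℤ) + 1 = v0 + ((n'.succ : ℕ) : ℤ) by push_cast; ring]
  have a2 : C.h ≤ i0 := by
    have s := Nat.find_spec ex2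
    have m : ∀ k, k < Nat.find ex2 → C.f y (v0 - k) = l0 := fun k hk => by
      have := Nat.find_min ex2 hk; simpa using this
    set n := Nat.find ex2
    have hn : n ≠ 0 := by rintro h0; rw [h0] at s; simp [hv0] at s
    obtain ⟨n', hn'⟩ := Nat.exists_eq_succ_of_ne_zero hn
    have hI' := chain_down G hd cov hI n' (fun k hk => m k (by omega))
    refine bot_exit hd hi0 hl hI' (m n' (by omega)) ?_
    rw [hn'] at s
    rwa [show v0 - (n' : ℤ) - 1 = v0 - ((n'.succ : ℕ) : ℤ) by push_cast; ring]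
  omega

end Cfg

end Pool.Agent.H98.Flat
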