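import Pool.Agent.H98.Flat.PartI

/-! Disjoint + flat (and `w ≤ h`) implies two-valued, second half. -/

namespace Pool.Agent.H98.Flat

open Finset

namespace Cfg

variable {C : Cfg}

theorem ver_low {k v : ℤ} (h : C.N ∣ v + 1 - (C.V k - C.H)) : C.ver k v = 0 := by
  have := C.N_pos
  have := C.H_lt
  have := C.H_pos
  unfold ver
  rw [ph_at (t := C.N - 1) _ (by omega) (by omega), if_neg (by omega)]
  have := dvd_sub h (dvd_refl C.N)
  rwa [show v + 1 - (C.V k - C.H) - C.N = v - (C.V k - C.H + (C.N - 1)) by ring] at this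

theorem inTop {y v : ℤ} {i : ℕ} (hi : i < C.w) (hdv : C.N ∣ v + 1 - C.V (y + i)) :
    C.In (y + i) (v - C.q * y + 1) v := by
  have hN := C.N_pos
  have hW := C.W_pos
  have hH := C.H_pos
  have hWH := C.WH_le
  have hq := q_step (C := C) hi
  have hqi : (0 : ℤ) ≤ C.q * i := by positivity
  have hqp := C.q_pos
  constructor
  · unfold hor
    rw [ph_at (t := C.q * i) _ hqi (by unfold W at *; omega), if_pos (by unfold W; omega)]
    rwa [show v - C.q * y + 1 - (C.U (y + i) + C.q * i) = v + 1 - C.V (y + i) by unfold V; ring]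
  · unfold ver
    rw [ph_at (t := C.H - 1) _ (by omega) (by omega), if_pos (by omega)]
    rwa [show v - (C.V (y + i) - C.H + (C.H - 1)) = v + 1 - C.V (y + i) by ring]

theorem inBot {y v : ℤ} {i : ℕ} (hi : i < C.w) (hdv : C.N ∣ v - (C.V (y + C.h + i) - C.H)) :
    C.In (y + C.h + i) (v - C.q * y) v := by
  have hN := C.N_pos
  have hW := C.W_pos
  have hH := C.H_pos
  have hWH := C.WH_le
  have hq := q_step (C := C) hi
  have hqi : (0 : ℤ) ≤ C.q * i := by positivity
  have hqp := C.q_pos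
  constructor
  · unfold hor
    rw [ph_at (t := C.q * i) _ hqi (by unfold W at *; omega), if_pos (by unfold W; omega)]
    rwa [show v - C.q * y - (C.U (y + C.h + i) + C.q * i) = v - (C.V (y + C.h + i) - C.H) by
      unfold V H; ring]
  · unfold ver
    rw [ph_at (t := 0) _ (by omega) (by omega), if_pos (by omega)]
    rwa [add_zero]

theorem gid' (y u : ℤ) : C.g y u = C.R u (u + C.q * y) + C.f y (u + C.q * y) := by
  have := gid_top (C := C) y (u + C.q * y)
  rwa [add_sub_cancel_right] at this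

theorem step_right (G : Gen C) (hd : C.Disj) {y l0 u : ℤ} {i : ℕ} (hi : i < C.p)
    (hl : ∀ v, l0 ≤ C.f y v) (hf : ∀ v, C.f y v ≤ l0 + 1)
    (hI : C.In (y + i) u (u + C.q * y)) (hg : C.g y u = l0 + 2)
    (hh : C.hor (y + i) (u + 1) = 1) :
    C.In (y + i) (u + 1) (u + 1 + C.q * y) ∧ C.g y (u + 1) = l0 + 2 := by
  have hN := C.N_pos
  have hW := C.W_pos
  have hWH := C.WH_le
  have hH := C.H_pos
  have e1 := gid' (C := C) y u
  have e2 := gid' (C := C) y (u + 1)
  have r1 := R_eq_one hd hI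
  have hfv : C.f y (u + C.q * y) = l0 + 1 := by omega
  have ev : u + 1 + C.q * y = u + C.q * y + 1 := by ring
  have hI2 : C.In (y + i) (u + 1) (u + 1 + C.q * y) := by
    refine ⟨hh, ?_⟩
    rcases ph_succ hN hH.le C.H_lt.le hI.2 with h | h
    · rw [ev]; exact h
    · exfalso
      rw [sub_add_cancel] at h
      have hqi : (0 : ℤ) ≤ C.q * i := by positivity
      have hqN : (C.q : ℤ) * i < C.N := by
        have := q_step (C := C) hi
        have := C.q_pos
        rw [C.q_p] at *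
        omega
      have h3 : C.q * (i : ℤ) < C.W := by
        have h2 := hh
        unfold hor at h2
        rw [ph_at (t := C.q * i) _ hqi hqN] at h2
        · by_contra c
          rw [if_neg c] at h2
          omega
        · rwa [show u + 1 - (C.U (y + i) + C.q * i) = u + C.q * y + 1 - C.V (y + i) by
            unfold V; ring]
      have h4 : i < C.w := lt_of_q (C := C) h3
      have := f_up_of G h4 h
      rw [add_sub_cancel_right] at this
      have := hf (u + C.q * y + 1)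
      omega
  refine ⟨hI2, ?_⟩
  have r2 := R_eq_one hd hI2
  have a1 := hl (u + 1 + C.q * y)
  have a2 := hf (u + 1 + C.q * y)
  by_contra c
  have hlow : C.f y (u + 1 + C.q * y) = l0 := by omega
  obtain ⟨i', hi', hdv⟩ := f_down (C := C) (y := y) (v := u + 1 + C.q * y) (by
    rw [show u + 1 + C.q * y - 1 = u + C.q * y by ring]; omega)
  have I3 := inBot hi' hdv
  rw [show u + 1 + C.q * y - C.q * y = u + 1 by ring] at I3
  have hk := disj_eq hd hI2 I3
  have hz : C.ver (y + i) (u + C.q * y) = 0 := by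
    apply ver_low
    have := dvd_sub hdv (C.V_congr hk)
    rwa [show u + 1 + C.q * y - (C.V (y + C.h + i') - C.H) - (C.V (y + i) - C.V (y + C.h + i'))
      = u + C.q * y + 1 - (C.V (y + i) - C.H) by ring] at this
  have := hI.2
  omega

theorem step_left (G : Gen C) (hd : C.Disj) {y l0 u : ℤ} {i : ℕ} (hi : i < C.p)
    (hl : ∀ v, l0 ≤ C.f y v) (hf : ∀ v, C.f y v ≤ l0 + 1)
    (hI : C.In (y + i) (u + 1) (u + 1 + C.q * y)) (hg : C.g y (u + 1) = l0 + 2)
    (hh : C.hor (y + i) u = 1) :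
    C.In (y + i) u (u + C.q * y) ∧ C.g y u = l0 + 2 := by
  have hN := C.N_pos
  have hW := C.W_pos
  have hWH := C.WH_le
  have hH := C.H_pos
  have e1 := gid' (C := C) y u
  have e2 := gid' (C := C) y (u + 1)
  have r1 := R_eq_one hd hI
  have hfv : C.f y (u + 1 + C.q * y) = l0 + 1 := by omega
  have ev : u + 1 + C.q * y = u + C.q * y + 1 := by ring
  rw [ev] at hI hfv e2 r1
  have hI2 : C.In (y + i) u (u + C.q * y) := by
    refine ⟨hh, ?_⟩
    rcases ph_pred hN hH.le C.H_lt.le hI.2 with h | h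
    · exact h
    · exfalso
      have hqp := C.q_pos
      have hqN := q_step (C := C) hi
      rw [C.q_p] at hqN
      have h2 := ph_eq_one_iff.1 hI.1
      have h3 : (u + 1 - C.U (y + i)) % C.N = (C.q * i - C.H) % C.N := by
        apply emod_congr
        rwa [show u + 1 - C.U (y + i) - (C.q * i - C.H)
          = u + C.q * y + 1 - (C.V (y + i) - C.H) by unfold V; ring]
      rw [h3] at h2
      by_cases c : C.h ≤ i
      · obtain ⟨j, rfl⟩ := Nat.exists_eq_add_of_le c
        have e : (C.q : ℤ) * ((C.h + j : ℕ) : ℤ) - C.H = C.q * j := by unfold H; push_cast; ring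
        rw [e] at h2
        have hj : (0 : ℤ) ≤ C.q * j := by positivity
        rw [Int.emod_eq_of_lt hj (by omega)] at h2
        have hj2 : j < C.w := lt_of_q (C := C) h2
        have := f_down_of G (y := y) (v := u + C.q * y + 1) (i := j) hj2 (by
          rwa [show y + C.h + (j : ℤ) = y + ((C.h + j : ℕ) : ℤ) by push_cast; ring])
        rw [add_sub_cancel_right] at this
        have := hf (u + C.q * y)
        omega
      · have h5 := q_step (C := C) (not_le.1 c)
        have hj : (0 : ℤ) ≤ C.q * i := by positivity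
        have h6 : (C.q * (i : ℤ) - C.H) % C.N = C.q * i - C.H + C.N := by
          refine ((Int.ediv_emod_unique (q := -1) hN).2 ⟨?_, by omega, ?_⟩).2
          · rw [mul_neg]; omega
          · unfold H at *; omega
        omega
  refine ⟨hI2, ?_⟩
  have r2 := R_eq_one hd hI2
  have a1 := hl (u + C.q * y)
  have a2 := hf (u + C.q * y)
  by_contra c
  have hlow : C.f y (u + C.q * y) = l0 := by omega
  obtain ⟨i', hi', hdv⟩ := f_up (C := C) (y := y) (v := u + C.q * y + 1) (by
    rw [add_sub_cancel_right]; omega)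
  have I3 := inTop hi' hdv
  rw [show u + C.q * y - C.q * y + 1 = u + 1 by ring] at I3
  have hk := disj_eq hd ⟨hI.1, hI2.2⟩ I3
  have hz : C.ver (y + i) (u + C.q * y + 1) = 0 := by
    apply ver_V
    have := dvd_sub hdv (C.V_congr hk)
    rwa [show u + C.q * y + 1 - C.V (y + i') - (C.V (y + i) - C.V (y + i'))
      = u + C.q * y + 1 - C.V (y + i) by ring] at this
  have := hI.2
  omega

theorem claimA (G : Gen C) (hd : C.Disj) {y l0 u0 : ℤ} {i : ℕ} (hi : i < C.p)
    (hl : ∀ v, l0 ≤ C.f y v) (hf : ∀ v, C.f y v ≤ l0 + 1)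
    (hI : C.In (y + i) u0 (u0 + C.q * y)) (hg : C.g y u0 = l0 + 2) :
    ∀ u, C.hor (y + i) u = 1 → C.g y u = l0 + 2 := by
  have := arc_induct C.N_pos C.W_lt.le
    (fun u => C.In (y + i) u (u + C.q * y) ∧ C.g y u = l0 + 2) ?_ hI.1 ⟨hI, hg⟩ ?_ ?_
  · intro u hu
    exact (this u hu).2
  · rintro x x' hx ⟨h1, h2⟩
    refine ⟨In_congr (by simp) hx ?_ h1, ?_⟩
    · rwa [show x + C.q * y - (x' + C.q * y) = x - x' by ring]
    · rw [← h2]
      exact C.g_congr (by simp) ((dvd_sub_comm).1 hx)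
  · rintro x _ hx2 ⟨h1, h2⟩
    exact step_right G hd hi hl hf h1 h2 hx2
  · rintro x hx1 _ ⟨h1, h2⟩
    exact step_left G hd hi hl hf h1 h2 hx1

theorem hor_U (k : ℤ) : C.hor k (C.U k) = 1 := by
  unfold hor
  rw [ph_at (t := 0) (by simp) le_rfl C.N_pos, if_pos C.W_pos]

/-- if all cells `hor k × {v}` are covered, then they are covered by `k` -/
theorem full_row (G : Gen C) (hd : C.Disj) {k v : ℤ}
    (h : ∀ u, C.hor k u = 1 → 1 ≤ C.R u v) : C.ver k v = 1 := by
  have hN := C.N_pos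
  have hW := C.W_pos
  have hWl := C.W_lt
  obtain ⟨j, hj⟩ := exists_In (h _ (hor_U k))
  have all := arc_up hN C.W_lt.le (fun u => C.In j u v) (a := C.U k)
    (fun x x' hx h1 => In_congr (by simp) hx (by simp) h1) hj (by
      intro x _ hx2 h1
      obtain ⟨j', hj'⟩ := exists_In (h _ hx2)
      exact In_congr ((dvd_sub_comm).1 (near' G hd h1 hj')) (by simp) (by simp) hj')
  have h1 := ph_eq_one_iff.1 hj.1
  have h0 := Int.emod_nonneg (C.U k - C.U j) hN.ne'
  have e := Int.emod_add_mul_ediv (C.U k - C.U j) C.N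
  set d := (C.U k - C.U j) % C.N with hd'
  by_cases c : d = 0
  · have hk : (C.p : ℤ) ∣ k - j := G.UU k j (Int.dvd_of_emod_eq_zero c)
    have := In_congr ((dvd_sub_comm).1 hk) (by simp : C.N ∣ C.U k - C.U k)
      (by simp : C.N ∣ v - v) hj
    exact this.2
  · exfalso
    have h2 : C.hor k (C.U k + (C.W - d)) = 1 := by
      unfold hor
      rw [ph_at (t := C.W - d) (by simp) (by omega) (by omega), if_pos (by omega)]
    have h3 := (all _ h2).1
    unfold hor at h3
    rw [ph_at (t := C.W) _ hW.le hWl, if_neg (lt_irrefl _)] at h3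
    · omega
    · exact ⟨(C.U k - C.U j) / C.N, by omega⟩

theorem claimB (G : Gen C) (hd : C.Disj) (hfl : C.IsFlat) {y l0 u0 v' : ℤ} {i : ℕ} (hi : i < C.p)
    (hl : ∀ v, l0 ≤ C.f y v) (hf : ∀ v, C.f y v ≤ l0 + 1)
    (hI : C.In (y + i) u0 (u0 + C.q * y)) (hg : C.g y u0 = l0 + 2) (hv' : C.f y v' = l0) :
    C.ver (y + i) v' = 1 := by
  apply full_row G hd
  intro u hu
  have h1 := claimA G hd hi hl hf hI hg u hu
  have h2 := (abs_le.1 (hfl u v' y)).1
  omega

theorem sum_ph' (C : Cfg) (a L : ℤ) (h0 : 0 ≤ L) (h1 : L ≤ C.N) :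
    ∑ x ∈ range (C.p * C.q), ph C.N a L (x : ℤ) = L := by
  have := sum_ph (C.p * C.q) C.n_pos a L h0 (by rw [C.N_eq]; exact h1)
  rwa [C.N_eq] at this

theorem sum_g (y : ℤ) : ∑ x ∈ range (C.p * C.q), C.g y (x : ℤ)
    = ∑ i ∈ range C.w, C.ell (y + i) + C.h * C.W := by
  unfold g
  rw [Finset.sum_add_distrib, Finset.sum_comm]
  congr 1
  · exact Finset.sum_congr rfl fun i _ => C.sum_ph' _ _ (C.ell_nonneg _) (C.ell_lt _).le
  · rw [Finset.sum_comm, Finset.sum_congr rfl fun i _ => C.sum_ph' _ _ C.W_pos.le C.W_lt.le]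
    simp

theorem sum_f (y t : ℤ) : ∑ x ∈ range (C.p * C.q), C.f y ((x : ℤ) + t)
    = ∑ i ∈ range C.w, C.ell (y + i) := by
  unfold f
  rw [Finset.sum_comm]
  refine Finset.sum_congr rfl fun i _ => ?_
  refine Eq.trans ?_ (C.sum_ph' (C.V (y + i) - t) (C.ell (y + i)) (C.ell_nonneg _) (C.ell_lt _).le)
  refine Finset.sum_congr rfl fun x _ => ?_
  apply ph_congr
  exact ⟨0, by ring⟩

theorem sum_diag (y : ℤ) : ∑ x ∈ range (C.p * C.q), C.R (x : ℤ) ((x : ℤ) + C.q * y)
    = C.h * C.W := by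
  have h1 := sum_g (C := C) y
  have h2 := sum_f (C := C) y (C.q * y)
  have h3 : ∑ x ∈ range (C.p * C.q), C.g y (x : ℤ)
    = ∑ x ∈ range (C.p * C.q), (C.R (x : ℤ) ((x : ℤ) + C.q * y) + C.f y ((x : ℤ) + C.q * y)) :=
    Finset.sum_congr rfl fun x _ => gid' y x
  rw [Finset.sum_add_distrib] at h3
  omega

theorem near_arc {k v v' : ℤ} (h1 : C.ver k v = 1) (h2 : C.ver k v' = 1) :
    ph C.N (v' - C.H + 1) (2 * C.H - 1) v = 1 := by
  have a := ph_eq_one_iff.1 h1
  have b := ph_eq_one_iff.1 h2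
  have hN := C.N_pos
  have hH := C.H_pos
  have a0 := Int.emod_nonneg (v - (C.V k - C.H)) hN.ne'
  have b0 := Int.emod_nonneg (v' - (C.V k - C.H)) hN.ne'
  have ea := Int.emod_add_mul_ediv (v - (C.V k - C.H)) C.N
  have eb := Int.emod_add_mul_ediv (v' - (C.V k - C.H)) C.N
  rw [ph_eq_one_iff]
  have e : (v - (v' - C.H + 1)) % C.N = ((v - (C.V k - C.H)) % C.N - (v' - (C.V k - C.H)) % C.N
      + C.H - 1) % C.N := by
    apply emod_congr
    refine ⟨(v - (C.V k - C.H)) / C.N - (v' - (C.V k - C.H)) / C.N, ?_⟩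
    rw [mul_sub]; omega
  rw [e]
  by_cases c : 2 * C.H - 1 ≤ C.N
  · rw [Int.emod_eq_of_lt (by omega) (by omega)]; omega
  · have := Int.emod_lt_of_pos ((v - (C.V k - C.H)) % C.N - (v' - (C.V k - C.H)) % C.N
      + C.H - 1) hN
    omega

theorem two_valued_le (G : Gen C) (hd : C.Disj) (hfl : C.IsFlat) (hwh : C.w ≤ C.h) (hw2 : 2 ≤ C.w)
    (y : ℤ) : ∃ c, (∀ v, c ≤ C.f y v ∧ C.f y v ≤ c + 1) ∧ (∀ u, c ≤ C.g y u ∧ C.g y u ≤ c + 1) := by
  have hN := C.N_pos
  -- minimum of f
  have hne : (range (C.p * C.q)).Nonempty := ⟨0, Finset.mem_range.2 C.n_pos⟩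
  obtain ⟨v0, hv0m, hv0⟩ := Finset.exists_min_image (range (C.p * C.q))
    (fun x : ℕ => C.f y (x : ℤ)) hne
  have red : ∀ v : ℤ, ∃ x : ℕ, x ∈ range (C.p * C.q) ∧ C.N ∣ v - x := by
    intro v
    refine ⟨(v % C.N).toNat, ?_, ?_⟩
    · rw [Finset.mem_range]
      have l := Int.emod_nonneg v hN.ne'
      have u := Int.emod_lt_of_pos v hN
      have := C.N_eq
      omega
    · rw [Int.toNat_of_nonneg (Int.emod_nonneg v hN.ne')]
      exact Int.dvd_self_sub_emod
  have hl : ∀ v, C.f y v0 ≤ C.f y v := by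
    intro v
    obtain ⟨x, hx, hxd⟩ := red v
    rw [C.f_congr (y := y) (y' := y) (by simp) hxd]
    exact hv0 x hx
  obtain ⟨us, hus⟩ := I1 G hd hwh hl rfl
  have hf : ∀ v, C.f y v ≤ C.f y v0 + 1 := by
    intro v
    have h1 := (abs_le.1 (hfl us v y)).2
    have := C.R_nonneg us v
    omega
  set l0 := C.f y v0 with hl0
  have hgl : ∀ u, l0 ≤ C.g y u := by
    intro u
    have := gid' (C := C) y u
    have := C.R_nonneg u (u + C.q * y)
    have := hl (u + C.q * y)
    omega
  have hg2 : ∀ u, C.g y u ≤ l0 + 2 := by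
    intro u
    have := gid' (C := C) y u
    have := hd u (u + C.q * y)
    have := hf (u + C.q * y)
    omega
  refine ⟨l0, fun v => ⟨hl v, hf v⟩, fun u => ⟨hgl u, ?_⟩⟩
  by_contra hc
  have hgu : C.g y u = l0 + 2 := by have := hg2 u; omega
  have hcov : 1 ≤ C.R u (u + C.q * y) := by
    have := gid' (C := C) y u
    have := hf (u + C.q * y)
    omega
  obtain ⟨i, hi, hI⟩ := cov_idx y hcov
  have vs : C.ver (y + i) v0 = 1 := claimB G hd hfl hi hl hf hI hgu hl0.symm
  have key : ∀ x : ℤ, C.R x (x + C.q * y)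
      ≤ ph C.N (v0 - C.H + 1 - C.q * y) (2 * C.H - 1) x := by
    intro x
    by_cases c : 1 ≤ C.R x (x + C.q * y)
    · have e : ph C.N (v0 - C.H + 1 - C.q * y) (2 * C.H - 1) x
          = ph C.N (v0 - C.H + 1) (2 * C.H - 1) (x + C.q * y) := by
        apply ph_congr; exact ⟨0, by ring⟩
      rw [e]
      have h1 := hd x (x + C.q * y)
      obtain ⟨i', hi', hI'⟩ := cov_idx y c
      by_cases c2 : C.f y (x + C.q * y) = l0
      · have v1 : C.ver (y + i) (x + C.q * y) = 1 := claimB G hd hfl hi hl hf hI hgu c2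
        rw [near_arc v1 vs]; exact h1
      · have hfx := hf (x + C.q * y)
        have hlx := hl (x + C.q * y)
        have hgx := gid' (C := C) y x
        have r1 := R_eq_one hd hI'
        have vs' : C.ver (y + i') v0 = 1 :=
          claimB G hd hfl hi' hl hf hI' (by omega) hl0.symm
        rw [near_arc hI'.2 vs']; exact h1
    · have := ph_nonneg C.N (v0 - C.H + 1 - C.q * y) (2 * C.H - 1) x
      omega
  have hsum := sum_diag (C := C) y
  have hb : ∑ x ∈ range (C.p * C.q), C.R (x : ℤ) ((x : ℤ) + C.q * y) ≤ 2 * C.H - 1 := by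
    have hH := C.H_pos
    by_cases c : 2 * C.H - 1 ≤ C.N
    · calc _ ≤ ∑ x ∈ range (C.p * C.q), ph C.N (v0 - C.H + 1 - C.q * y) (2 * C.H - 1) (x : ℤ) :=
            Finset.sum_le_sum fun x _ => key x
        _ = _ := C.sum_ph' _ _ (by omega) c
    · calc _ ≤ ∑ x ∈ range (C.p * C.q), (1 : ℤ) := Finset.sum_le_sum fun x _ => hd _ _
        _ = C.N := by rw [← C.N_eq]; simp
        _ ≤ _ := by omega
  rw [hsum] at hb
  have h1 : (2 : ℤ) ≤ C.w := by exact_mod_cast hw2
  have h2 := C.q_pos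
  have h3 : (0 : ℤ) < C.h := by exact_mod_cast C.hh
  unfold W H at hb
  have h4 : (0 : ℤ) < C.q * C.h := mul_pos h2 h3
  nlinarith

end Cfg

end Pool.Agent.H98.Flat
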