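import Pool.Agent.H98.Flat.PartI2

/-! The reflection `(u,v) ↦ (-v-1,-u-1)`, exchanging `w` and `h`. -/

namespace Pool.Agent.H98.Flat

open Finset

namespace Cfg

def refl (C : Cfg) : Cfg where
  p := C.p
  q := C.q
  w := C.h
  h := C.w
  U := fun k => - C.V k
  hq := C.hq
  hw := C.hh
  hh := C.hw
  hwh := by have := C.hwh; omega
  per := by
    intro k
    have := C.V_congr (k := k + C.p) (j := k) (by simp)
    have := (dvd_neg (a := C.N)).2 this
    show C.N ∣ _
    rwa [show -C.V (k + C.p) - -C.V k = -(C.V (k + C.p) - C.V k) by ring]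

variable {C : Cfg}

theorem refl_p : C.refl.p = C.p := rfl
theorem refl_q : C.refl.q = C.q := rfl
theorem refl_w : C.refl.w = C.h := rfl
theorem refl_h : C.refl.h = C.w := rfl
theorem refl_N : C.refl.N = C.N := rfl
theorem refl_W : C.refl.W = C.H := rfl
theorem refl_H : C.refl.H = C.W := rfl
theorem refl_U (k : ℤ) : C.refl.U k = - C.V k := rfl
theorem refl_V (k : ℤ) : C.refl.V k = - C.U k := by
  unfold V; rw [refl_U]; unfold V; rw [refl_q]; ring
theorem refl_ell (k : ℤ) : C.refl.ell k = (C.V k - C.V (k + C.w)) % C.N := by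
  unfold ell; rw [refl_h, refl_U, refl_U, refl_N]; congr 1; ring

theorem refl_R (u v : ℤ) : C.refl.R (-v - 1) (-u - 1) = C.R u v := by
  unfold R
  rw [refl_p]
  refine Finset.sum_congr rfl fun k _ => ?_
  have h1 : C.refl.hor k (-v - 1) = C.ver k v := by
    unfold hor ver
    rw [refl_N, refl_U, refl_W, ← ph_neg C.N_pos C.H_pos.le C.H_lt.le v]
    congr 1; ring
  have h2 : C.refl.ver k (-u - 1) = C.hor k u := by
    unfold hor ver
    rw [refl_N, refl_V, refl_H, ← ph_neg C.N_pos C.W_pos.le C.W_lt.le u]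
  rw [h1, h2]; ring

theorem dv_neg (N x : ℤ) : dv N (-x) = dv N x := by unfold dv; simp

/-- the constant relating a configuration and its reflection -/
def K (C : Cfg) (y : ℤ) : ℤ := C.g y 0 + C.refl.f y (-1)

theorem g_refl (y u : ℤ) : C.g y u + C.refl.f y (-u - 1) = C.K y := by
  unfold K
  have := const_of_jump (fun u => C.g y u + C.refl.f y (-u - 1)) ?_ u 0
  · simpa using this
  intro u
  have h1 := C.g_jump y u
  have h2 := C.refl.f_jump y (-u)
  rw [refl_w, refl_h, refl_N] at h2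
  have e1 : ∑ i ∈ range C.h, dv C.N (-u - C.refl.V (y + i))
      = ∑ i ∈ range C.h, dv C.N (u - C.U (y + i)) :=
    Finset.sum_congr rfl fun i _ => by
      rw [refl_V, ← dv_neg C.N (u - C.U (y + i))]; congr 1; ring
  have e2 : ∑ i ∈ range C.h, dv C.N (-u - (C.refl.V (y + C.w + i) - C.refl.H))
      = ∑ i ∈ range C.h, dv C.N (u - (C.U (y + C.w + i) + C.W)) :=
    Finset.sum_congr rfl fun i _ => by
      rw [refl_V, refl_H, ← dv_neg C.N (u - (C.U (y + C.w + i) + C.W))]; congr 1; ring
  rw [e1, e2] at h2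
  have e3 : -(u - 1) - 1 = -u := by ring
  simp only [e3]
  omega

theorem f_refl_aux (y v : ℤ) : C.refl.g y (-v - 1) + C.f y v = C.refl.g y (-1) + C.f y 0 := by
  have := const_of_jump (fun v => C.refl.g y (-v - 1) + C.f y v) ?_ v 0
  · simpa using this
  intro v
  have h1 := C.f_jump y v
  have h2 := C.refl.g_jump y (-v)
  rw [refl_w, refl_h, refl_N] at h2
  have e1 : ∑ i ∈ range C.w, dv C.N (-v - C.refl.U (y + i))
      = ∑ i ∈ range C.w, dv C.N (v - C.V (y + i)) :=
    Finset.sum_congr rfl fun i _ => by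
      rw [refl_U, ← dv_neg C.N (v - C.V (y + i))]; congr 1; ring
  have e2 : ∑ i ∈ range C.w, dv C.N (-v - (C.refl.U (y + C.h + i) + C.refl.W))
      = ∑ i ∈ range C.w, dv C.N (v - (C.V (y + C.h + i) - C.H)) :=
    Finset.sum_congr rfl fun i _ => by
      rw [refl_U, refl_W, ← dv_neg C.N (v - (C.V (y + C.h + i) - C.H))]; congr 1; ring
  rw [e1, e2] at h2
  have e3 : -(v - 1) - 1 = -v := by ring
  simp only [e3]
  omega

theorem f_refl (y v : ℤ) : C.refl.g y (-v - 1) + C.f y v = C.K y := by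
  rw [f_refl_aux]
  have h0 := f_refl_aux (C := C) y (C.q * y)
  have h1 := gid' (C := C) y 0
  have h2 := gid' (C := C.refl) y (-(C.q * y) - 1)
  rw [refl_q, show -(C.q * y) - 1 + C.q * y = -0 - 1 by ring, refl_R] at h2
  simp only [zero_add, neg_zero, zero_sub] at h1 h2
  unfold K
  omega

theorem gen_refl (G : Gen C) : Gen C.refl where
  UU := by
    intro i j h
    rw [refl_U, refl_U, refl_N] at h
    apply G.VV
    rw [show C.V i - C.V j = -(-C.V i - -C.V j) by ring]
    exact (dvd_neg).2 h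
  UW := by
    intro i j h
    rw [refl_U, refl_U, refl_N, refl_W] at h
    apply G.VH i j
    rw [show C.V i - (C.V j - C.H) = -(-C.V i - (-C.V j + C.H)) by ring]
    exact (dvd_neg).2 h
  VV := by
    intro i j h
    rw [refl_V, refl_V, refl_N] at h
    apply G.UU
    rw [show C.U i - C.U j = -(-C.U i - -C.U j) by ring]
    exact (dvd_neg).2 h
  VH := by
    intro i j h
    rw [refl_V, refl_V, refl_N, refl_H] at h
    apply G.UW i j
    rw [show C.U i - (C.U j + C.W) = -(-C.U i - (-C.U j - C.W)) by ring]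
    exact (dvd_neg).2 h

theorem refl_R' (u v : ℤ) : C.refl.R u v = C.R (-v - 1) (-u - 1) := by
  rw [← refl_R (C := C) (-v - 1) (-u - 1)]; congr 1 <;> ring

theorem disj_refl (hd : C.Disj) : C.refl.Disj := by
  intro u v
  rw [refl_R']
  exact hd _ _

theorem flat_refl (hfl : C.IsFlat) : C.refl.IsFlat := by
  intro u v y
  have h := hfl (-v - 1) (-u - 1) y
  have h1 := g_refl (C := C) y (-v - 1)
  have h2 := f_refl (C := C) y (-u - 1)
  rw [show -(-v - 1) - 1 = v by ring] at h1
  rw [show -(-u - 1) - 1 = u by ring] at h2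
  rw [refl_R']
  have e : C.R (-v - 1) (-u - 1) - C.refl.g y u + C.refl.f y v
      = C.R (-v - 1) (-u - 1) - C.g y (-v - 1) + C.f y (-u - 1) := by omega
  rw [e]; exact h

theorem two_valued (G : Gen C) (hd : C.Disj) (hfl : C.IsFlat) (hw2 : 2 ≤ C.w) (hh2 : 2 ≤ C.h)
    (y : ℤ) : ∃ c, (∀ v, c ≤ C.f y v ∧ C.f y v ≤ c + 1) ∧ (∀ u, c ≤ C.g y u ∧ C.g y u ≤ c + 1) := by
  rcases le_total C.w C.h with h | h
  · exact two_valued_le G hd hfl h hw2 y
  · obtain ⟨c, h1, h2⟩ := two_valued_le (gen_refl G) (disj_refl hd) (flat_refl hfl) h hh2 y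
    refine ⟨C.K y - c - 1, fun v => ?_, fun u => ?_⟩
    · have := f_refl (C := C) y v
      have := h2 (-v - 1)
      omega
    · have := g_refl (C := C) y u
      have := h1 (-u - 1)
      omega

end Cfg

end Pool.Agent.H98.Flat
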