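import Pool.Agent.H98.Flat.Reflect

/-! Rows of a disjoint two-valued configuration. -/

namespace Pool.Agent.H98.Flat

open Finset

namespace Cfg

variable {C : Cfg}

/-- two-valued, with constants `c y` -/
def TV (C : Cfg) (c : ℤ → ℤ) : Prop :=
  ∀ y, (∀ v, c y ≤ C.f y v ∧ C.f y v ≤ c y + 1) ∧ (∀ u, c y ≤ C.g y u ∧ C.g y u ≤ c y + 1)

def A (C : Cfg) (y : ℤ) : ℤ := C.U (y + C.w) + C.W
def tx (C : Cfg) (y : ℤ) : ℤ := (C.U y - C.A y) % C.N
def tz (C : Cfg) (y : ℤ) : ℤ := C.ell (y + C.w)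
def tb (C : Cfg) (y : ℤ) : ℤ := (C.U (y + C.h) - C.A y) % C.N

theorem cov_vals {c : ℤ → ℤ} (ht : C.TV c) {k y u s : ℤ} (h1 : C.q * (y - 1) ≤ s)
    (h2 : s ≤ C.q * y) (hI : C.In k u (u + s)) : C.g y u = c y + 1 ∧ C.f y (u + s) = c y := by
  have h := C.gid y u s h1 h2
  have r := R_pos_of_In hI
  have a := (ht y).1 (u + s)
  have b := (ht y).2 u
  omega

theorem inA (y : ℤ) : C.In (y + C.w) (C.A y - 1) (C.A y - 1 + C.q * y) := by
  have hN := C.N_pos
  have hW := C.W_pos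
  have hH := C.H_pos
  have hWH := C.WH_le
  unfold A
  constructor
  · unfold hor
    rw [ph_at (t := C.W - 1) _ (by omega) (by omega), if_pos (by omega)]
    exact ⟨0, by ring⟩
  · unfold ver
    rw [ph_at (t := C.H - 1) _ (by omega) (by omega), if_pos (by omega)]
    exact ⟨0, by unfold V W; ring⟩

theorem inB (y : ℤ) : C.In (y + C.h) (C.U (y + C.h)) (C.U (y + C.h) + C.q * y) := by
  have hN := C.N_pos
  have hW := C.W_pos
  have hH := C.H_pos
  constructor
  · exact hor_U _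
  · unfold ver
    rw [ph_at (t := 0) _ (by omega) (by omega), if_pos (by omega)]
    exact ⟨0, by unfold V H; ring⟩

theorem ell_pos (G : Gen C) (k : ℤ) : 0 < C.ell k := by
  have h0 := C.ell_nonneg k
  by_contra hc
  have h1 : C.ell k = 0 := by omega
  have h2 : C.N ∣ C.U (k + C.h) - C.U k := Int.dvd_of_emod_eq_zero h1
  have h3 := G.UU _ _ h2
  rw [add_sub_cancel_left] at h3
  have h4 := Nat.le_of_dvd C.hh (by exact_mod_cast h3)
  have := C.hwh
  have := C.hw
  omega

theorem corners {c : ℤ → ℤ} (ht : C.TV c) (y : ℤ) :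
    c (y + 1) = c y ∧ ph C.N (C.U y) (C.ell y) (C.A y - 1) = 0 ∧
      ph C.N (C.A y) (C.ell (y + C.w)) (C.U (y + C.h)) = 0 := by
  have hN := C.N_pos
  have hq := C.q_pos
  have a1 := cov_vals ht (y := y) (s := C.q * y) (by nlinarith) le_rfl (inA y)
  have a2 := cov_vals ht (y := y + 1) (s := C.q * y) (by rw [add_sub_cancel_right])
    (by nlinarith) (inA y)
  have b1 := cov_vals ht (y := y) (s := C.q * y) (by nlinarith) le_rfl (inB y)
  have b2 := cov_vals ht (y := y + 1) (s := C.q * y) (by rw [add_sub_cancel_right])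
    (by nlinarith) (inB y)
  have dA := C.g_step y (C.A y - 1)
  have dB := C.g_step y (C.U (y + C.h))
  unfold D at dA dB
  have e1 : ph C.N (C.U (y + C.w) + C.W) (C.ell (y + C.w)) (C.A y - 1) = 0 := by
    have := C.ell_lt (y + C.w)
    rw [ph_at (t := C.N - 1) _ (by omega) (by omega), if_neg (by omega)]
    exact ⟨-1, by unfold A; ring⟩
  have e2 : ph C.N (C.U y) (C.ell y) (C.U (y + C.h)) = 0 := by
    have := C.ell_lt y
    have h0 := C.ell_nonneg y
    rw [ph_at (t := C.ell y) _ h0 this, if_neg (lt_irrefl _)]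
    exact (dvd_sub_comm).1 (C.U_ell y)
  have p1 := ph_nonneg C.N (C.U y) (C.ell y) (C.A y - 1)
  have p2 := ph_nonneg C.N (C.A y) (C.ell (y + C.w)) (C.U (y + C.h))
  have e3 : ph C.N (C.U (y + C.w) + C.W) (C.ell (y + C.w)) (C.U (y + C.h))
    = ph C.N (C.A y) (C.ell (y + C.w)) (C.U (y + C.h)) := rfl
  omega

theorem A_tz (y : ℤ) : C.N ∣ C.A y + C.tz y - (C.U (y + C.w + C.h) + C.W) := by
  have := C.U_ell (y + C.w)
  unfold A tz
  rwa [show C.U (y + C.w) + C.W + C.ell (y + C.w) - (C.U (y + C.w + C.h) + C.W)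
    = C.U (y + C.w) + C.ell (y + C.w) - C.U (y + C.w + C.h) by ring]

structure RowFacts (C : Cfg) (y : ℤ) : Prop where
  tx0 : 0 ≤ C.tx y
  tbl : C.tb y < C.N
  tb_eq : C.tb y = C.tx y + C.ell y
  tz0 : 0 < C.tz y
  tz_lt : C.tz y < C.tb y
  ne : C.tx y ≠ C.tz y
  l0 : 0 < C.ell y

theorem rowFacts (G : Gen C) {c : ℤ → ℤ} (ht : C.TV c) (y : ℤ) : C.RowFacts y := by
  have hN := C.N_pos
  obtain ⟨-, cA, cB⟩ := corners ht y
  have l := ell_pos G y
  have lz := ell_pos G (y + C.w)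
  have tx0 : 0 ≤ C.tx y := Int.emod_nonneg _ hN.ne'
  have txl : C.tx y < C.N := Int.emod_lt_of_pos _ hN
  have tb0 : 0 ≤ C.tb y := Int.emod_nonneg _ hN.ne'
  have tbl : C.tb y < C.N := Int.emod_lt_of_pos _ hN
  have ex := Int.emod_add_mul_ediv (C.U y - C.A y) C.N
  have eb := Int.emod_add_mul_ediv (C.U (y + C.h) - C.A y) C.N
  -- from corner A
  have h1 : C.ell y ≤ C.N - 1 - C.tx y := by
    rw [ph_at (t := C.N - 1 - C.tx y) _ (by omega) (by omega)] at cA
    · by_contra hc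
      rw [if_pos (by omega)] at cA
      omega
    · refine ⟨-((C.U y - C.A y) / C.N) - 1, ?_⟩
      unfold tx
      rw [mul_sub, mul_neg]; omega
  have tb_eq : C.tb y = C.tx y + C.ell y := by
    have : C.tb y = (C.tx y + C.ell y) % C.N := by
      unfold tb
      apply emod_congr
      obtain ⟨m, hm⟩ := C.U_ell y
      refine ⟨(C.U y - C.A y) / C.N - m, ?_⟩
      unfold tx
      rw [mul_sub]; omega
    rw [this, Int.emod_eq_of_lt (by omega) (by omega)]
  have h2 : C.tz y ≤ C.tb y := by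
    have := ph_eq_one_iff (N := C.N) (a := C.A y) (L := C.ell (y + C.w)) (x := C.U (y + C.h))
    by_contra hc
    have h3 := this.2 (by unfold tz tb at hc; omega)
    omega
  have h3 : C.tz y ≠ C.tb y := by
    intro h
    apply G.UW (y + C.h) (y + C.w + C.h)
    obtain ⟨m, hm⟩ := A_tz (C := C) y
    refine ⟨(C.U (y + C.h) - C.A y) / C.N + m, ?_⟩
    rw [h] at hm
    unfold tb at hm
    rw [mul_add]; omega
  have h4 : C.tx y ≠ C.tz y := by
    intro h
    apply G.UW y (y + C.w + C.h)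
    obtain ⟨m, hm⟩ := A_tz (C := C) y
    refine ⟨(C.U y - C.A y) / C.N + m, ?_⟩
    rw [← h] at hm
    unfold tx at hm
    rw [mul_add]; omega
  exact ⟨tx0, tbl, tb_eq, lz, by omega, h4, l⟩

/-- membership in the arc of row `y` via the offset from `A y` -/
theorem arc_row {y u : ℤ} (F : C.RowFacts y) :
    ph C.N (C.U y) (C.ell y) u
      = if C.tx y ≤ (u - C.A y) % C.N ∧ (u - C.A y) % C.N < C.tb y then 1 else 0 := by
  have hN := C.N_pos
  have t0 := Int.emod_nonneg (u - C.A y) hN.ne'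
  have tl := Int.emod_lt_of_pos (u - C.A y) hN
  have et := Int.emod_add_mul_ediv (u - C.A y) C.N
  have ex := Int.emod_add_mul_ediv (C.U y - C.A y) C.N
  have f1 := F.tx0
  have f2 := F.tbl
  have f3 := F.tb_eq
  have f4 := F.l0
  have fx : C.tx y = (C.U y - C.A y) % C.N := rfl
  set t := (u - C.A y) % C.N with htt
  by_cases hc : C.tx y ≤ t
  · rw [ph_at (t := t - C.tx y) _ (by omega) (by omega)]
    · by_cases h : t < C.tb y
      · rw [if_pos (by omega), if_pos ⟨hc, h⟩]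
      · rw [if_neg (by omega), if_neg (by omega)]
    · refine ⟨(u - C.A y) / C.N - (C.U y - C.A y) / C.N, ?_⟩
      rw [mul_sub]; omega
  · rw [ph_at (t := t - C.tx y + C.N) _ (by omega) (by omega)]
    · rw [if_neg (by omega), if_neg (by omega)]
    · refine ⟨(u - C.A y) / C.N - (C.U y - C.A y) / C.N - 1, ?_⟩
      rw [mul_sub, mul_sub]; omega

theorem D_row {y u : ℤ} (F : C.RowFacts y) :
    C.D y u = (if (u - C.A y) % C.N < C.tz y then 1 else 0)
      - (if C.tx y ≤ (u - C.A y) % C.N ∧ (u - C.A y) % C.N < C.tb y then 1 else 0) := by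
  unfold D
  rw [arc_row F]
  rfl

def VRow (C : Cfg) (y : ℤ) : Prop := C.tz y < C.tx y
def HRow (C : Cfg) (y : ℤ) : Prop := C.tx y < C.tz y

theorem V_or_H {y : ℤ} (F : C.RowFacts y) : C.VRow y ∨ C.HRow y := by
  have := F.ne
  unfold VRow HRow
  omega

theorem refl_tx (y : ℤ) : C.refl.tx y = C.ell y := by
  unfold tx A
  rw [refl_w, refl_U, refl_U, refl_W, refl_N]
  unfold ell
  congr 1
  unfold V H; ring

theorem refl_tz {y : ℤ} (F : C.RowFacts y) : C.refl.tz y = C.tb y - C.tz y := by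
  have hN := C.N_pos
  unfold tz
  rw [refl_w, refl_ell]
  have f1 := F.tz_lt
  have f2 := F.tz0
  have f3 := F.tbl
  have : (C.V (y + C.h) - C.V (y + C.h + C.w)) % C.N = (C.tb y - C.tz y) % C.N := by
    apply emod_congr
    obtain ⟨m, hm⟩ := A_tz (C := C) y
    have eb := Int.emod_add_mul_ediv (C.U (y + C.h) - C.A y) C.N
    have e1 : C.V (y + C.h) - C.V (y + C.h + C.w) = C.U (y + C.h) - (C.U (y + C.w + C.h) + C.W) := by
      rw [show y + C.w + C.h = y + C.h + C.w by ring]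
      unfold V W; ring
    refine ⟨(C.U (y + C.h) - C.A y) / C.N + m, ?_⟩
    rw [e1]
    unfold tb
    rw [mul_add]; omega
  rw [this, Int.emod_eq_of_lt (by omega) (by omega)]
  rfl

theorem refl_V_iff {y : ℤ} (F : C.RowFacts y) : C.refl.VRow y ↔ C.HRow y := by
  unfold VRow HRow
  rw [refl_tx, refl_tz F]
  have := F.tb_eq
  constructor <;> intro h <;> omega

end Cfg

end Pool.Agent.H98.Flat
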